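import Mathlib
import Pool.Agent.TH419.WI.ArithF

/-!
# Integers close to sums of almost-units are sums of almost-units
-/

set_option autoImplicit false

open Finset Filter Topology

namespace Pool.Agent.TH419.HX

open Pool.Agent.TH419.WI

/-- the claim for `s` terms: an integer which is very close to a linear combination with
coefficients in `O` of almost-units is a rational combination of them, infinitely often -/
def ClaimR (O : Type) [CommRing O] (ρ : O →+* ℝ) {k : ℕ} (g : Fin k → ℕ) (C : ℝ) (s : ℕ) : Prop :=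
  ∀ (η : Fin s → O) (δ : ℝ) (_ : 0 < δ) (L : ℕ → ℝ) (_ : Tendsto L atTop atTop)
    (e0 : ℕ → Fin k → ℕ) (e : ℕ → Fin s → Fin k → ℕ) (lam : ℕ → Fin s → ℤ) (P : ℕ → ℤ)
    (_ : ∀ᶠ t in atTop, ((mon g (e0 t) : ℤ) : ℝ) ≤ Real.exp (C * L t))
    (_ : ∀ᶠ t in atTop, ∀ i, ((mon g (e t i) : ℤ) : ℝ) ≤ Real.exp (C * L t))
    (_ : ∀ ε : ℝ, 0 < ε → ∀ᶠ t in atTop, ∀ i, |(lam t i : ℝ)| ≤ Real.exp (ε * L t))
    (_ : ∀ᶠ t in atTop, |∑ i, ρ (η i) * ((mon g (e t i) * lam t i : ℤ) : ℝ) -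
      ((mon g (e0 t) * P t : ℤ) : ℝ)| ≤
      ((mon g (e0 t) : ℤ) : ℝ) * Real.exp (-(δ * L t))),
    ∃ (D : ℤ) (b : Fin s → ℤ), D ≠ 0 ∧ ∃ᶠ t in atTop,
      D * (mon g (e0 t) * P t) = ∑ i, b i * (mon g (e t i) * lam t i)

lemma claimR_succ (O : Type) [CommRing O] [IsDomain O] [CharZero O] [Module.Free ℤ O]
    [Module.Finite ℤ O] (ρ : O →+* ℝ) {k : ℕ} {g : Fin k → ℕ}
    (hg : ∀ v, 0 < g v) {C : ℝ} (hC : 0 ≤ C) {s : ℕ} (hcl : ClaimR O ρ g C s) :
    ClaimR O ρ g C (s + 1) := by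
  classical
  intro η δ hδ L hL e0 e lam P h0 h1 h2 h4
  let φ : O →+* ℂ := (Complex.ofRealHom).comp ρ
  have hφ : ∀ x : O, φ x = ((ρ x : ℝ) : ℂ) := fun x => rfl
  have hreal : ∀ x : O, (φ x).im = 0 := fun x => Complex.ofReal_im _
  have hnorm : ∀ x : O, ‖φ x‖ = |ρ x| := fun x => by rw [hφ, Complex.norm_real]; rfl
  -- a relation
  have hrel0 : ∃ y : Fin (s + 2) → ℤ, y ≠ 0 ∧ ∃ᶠ t in atTop, y 0 * (mon g (e0 t) * P t) +
      ∑ i : Fin (s + 1), y i.succ * (mon g (e t i) * lam t i) = 0 := by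
    by_cases hz : ∃ᶠ t in atTop, P t = 0 ∧ lam t = 0
    · refine ⟨fun _ => 1, fun h => ?_, hz.mono fun t ht => ?_⟩
      · exact one_ne_zero (congrFun h 0)
      · rw [ht.1, ht.2]; simp
    · rw [Filter.not_frequently] at hz
      obtain ⟨y, hy, hfr⟩ := rel O φ hreal g hg (0 : Fin (s + 2))
        (Fin.cons (-1 : O) η) (by simp) C δ hC hδ L hL
        (fun t => Fin.cons (e0 t) (e t)) (fun t => Fin.cons (P t) (lam t))
        (by
          filter_upwards [h1, h0] with t h5 h6 l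
          refine Fin.cases ?_ (fun i => ?_) l
          · rw [Fin.cons_zero]
            exact h6
          · rw [Fin.cons_succ]
            exact h5 i)
        (by
          intro ε hε
          filter_upwards [h2 ε hε] with t h5 l hl
          obtain ⟨i, rfl⟩ := Fin.exists_succ_eq.2 hl
          rw [Fin.cons_succ]
          exact h5 i)
        (by
          filter_upwards [hz] with t h5 h0
          apply h5
          constructor
          · have h6 := congrFun h0 0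
            rwa [Fin.cons_zero, Pi.zero_apply] at h6
          · funext i
            have h6 := congrFun h0 i.succ
            rwa [Fin.cons_succ, Pi.zero_apply] at h6)
        (by
          filter_upwards [h4] with t h5
          rw [hnorm, Fin.sum_univ_succ]
          simp only [Fin.cons_zero, Fin.cons_succ]
          refine le_trans (le_of_eq ?_) h5
          congr 1
          rw [map_add, map_sum, map_mul, map_neg, map_one, map_intCast]
          simp only [map_mul, map_intCast, neg_mul, one_mul]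
          ring)
      refine ⟨y, hy, hfr.mono fun t ht => ?_⟩
      rw [Fin.sum_univ_succ] at ht
      simpa only [Fin.cons_zero, Fin.cons_succ] using ht
  obtain ⟨y, hy, hfr'⟩ := hrel0
  by_cases hy0 : y 0 = 0
  swap
  · refine ⟨y 0, fun i => -y i.succ, hy0, hfr'.mono fun t ht => ?_⟩
    have h5 : ∑ i : Fin (s + 1), -y i.succ * (mon g (e t i) * lam t i) =
        -∑ i : Fin (s + 1), y i.succ * (mon g (e t i) * lam t i) := by
      rw [← Finset.sum_neg_distrib]
      exact Finset.sum_congr rfl fun i _ => by ring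
    rw [h5]
    linarith
  -- eliminate one term
  obtain ⟨i1, hi1⟩ : ∃ i : Fin (s + 1), y i.succ ≠ 0 := by
    by_contra hcon
    push Not at hcon
    apply hy
    funext l
    refine Fin.cases ?_ (fun i => ?_) l
    · exact hy0
    · exact hcon i
  obtain ⟨ψ, hψ, hrel⟩ := Filter.extraction_of_frequently_atTop hfr'
  have hψt := hψ.tendsto_atTop
  have hLψ : Tendsto (L ∘ ψ) atTop atTop := hL.comp hψt
  have hrel' : ∀ n, ∑ i, (y i.succ : ℝ) * ((mon g (e (ψ n) i) * lam (ψ n) i : ℤ) : ℝ) = 0 := by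
    intro n
    have h5 := hrel n
    rw [hy0, zero_mul, zero_add] at h5
    exact_mod_cast h5
  have hkey : ∀ n, ∑ j : Fin s, ρ (((y i1.succ : ℤ) : O) * η (i1.succAbove j) -
      ((y (i1.succAbove j).succ : ℤ) : O) * η i1) *
      ((mon g (e (ψ n) (i1.succAbove j)) * lam (ψ n) (i1.succAbove j) : ℤ) : ℝ) =
      (y i1.succ : ℝ) * ∑ i, ρ (η i) * ((mon g (e (ψ n) i) * lam (ψ n) i : ℤ) : ℝ) := by
    intro n
    have h5 : (y i1.succ : ℝ) * ∑ i, ρ (η i) * ((mon g (e (ψ n) i) * lam (ψ n) i : ℤ) : ℝ) =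
        ∑ i, ρ (((y i1.succ : ℤ) : O) * η i - ((y i.succ : ℤ) : O) * η i1) *
          ((mon g (e (ψ n) i) * lam (ψ n) i : ℤ) : ℝ) := by
      have h7 : ∀ i, ρ (((y i1.succ : ℤ) : O) * η i - ((y i.succ : ℤ) : O) * η i1) *
          ((mon g (e (ψ n) i) * lam (ψ n) i : ℤ) : ℝ) =
          (y i1.succ : ℝ) * (ρ (η i) * ((mon g (e (ψ n) i) * lam (ψ n) i : ℤ) : ℝ)) -
          ρ (η i1) * ((y i.succ : ℝ) * ((mon g (e (ψ n) i) * lam (ψ n) i : ℤ) : ℝ)) := by
        intro i
        rw [map_sub, map_mul, map_mul, map_intCast, map_intCast]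
        ring
      simp only [h7]
      rw [Finset.sum_sub_distrib, ← Finset.mul_sum, ← Finset.mul_sum, hrel' n, mul_zero, sub_zero]
    rw [h5, Fin.sum_univ_succAbove _ i1, sub_self, map_zero, zero_mul, zero_add]
  obtain ⟨D, b, hD, hfr2⟩ := hcl (fun j => ((y i1.succ : ℤ) : O) * η (i1.succAbove j) -
      ((y (i1.succAbove j).succ : ℤ) : O) * η i1) (δ / 2) (by positivity) (L ∘ ψ) hLψ
    (fun n => e0 (ψ n)) (fun n j => e (ψ n) (i1.succAbove j))
    (fun n j => lam (ψ n) (i1.succAbove j))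
    (fun n => y i1.succ * P (ψ n)) (hψt.eventually h0)
    (by
      filter_upwards [hψt.eventually h1] with n h5 j
      exact h5 _)
    (by
      intro ε hε
      filter_upwards [hψt.eventually (h2 ε hε)] with n h5 j
      exact h5 _)
    (by
      filter_upwards [hψt.eventually h4, ev_const_le hLψ |((y i1.succ : ℤ) : ℝ)| (δ / 2)
        (by positivity)] with n h5 h6
      rw [hkey n]
      have hm : (0 : ℝ) < ((mon g (e0 (ψ n)) : ℤ) : ℝ) := by exact_mod_cast mon_pos hg _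
      have h7 : (y i1.succ : ℝ) * ∑ i, ρ (η i) * ((mon g (e (ψ n) i) * lam (ψ n) i : ℤ) : ℝ) -
          ((mon g (e0 (ψ n)) * (y i1.succ * P (ψ n)) : ℤ) : ℝ) = (y i1.succ : ℝ) *
          (∑ i, ρ (η i) * ((mon g (e (ψ n) i) * lam (ψ n) i : ℤ) : ℝ) -
            ((mon g (e0 (ψ n)) * P (ψ n) : ℤ) : ℝ)) := by
        push_cast; ring
      rw [h7, abs_mul]
      calc |(y i1.succ : ℝ)| * |∑ i, ρ (η i) * ((mon g (e (ψ n) i) * lam (ψ n) i : ℤ) : ℝ) -
            ((mon g (e0 (ψ n)) * P (ψ n) : ℤ) : ℝ)|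
          ≤ Real.exp (δ / 2 * (L ∘ ψ) n) *
            (((mon g (e0 (ψ n)) : ℤ) : ℝ) * Real.exp (-(δ * L (ψ n)))) :=
            mul_le_mul h6 h5 (abs_nonneg _) (Real.exp_pos _).le
        _ = ((mon g (e0 (ψ n)) : ℤ) : ℝ) *
            (Real.exp (δ / 2 * (L ∘ ψ) n) * Real.exp (-(δ * L (ψ n)))) := by ring
        _ = ((mon g (e0 (ψ n)) : ℤ) : ℝ) * Real.exp (-(δ / 2 * (L ∘ ψ) n)) := by
            rw [← Real.exp_add]; congr 2; simp only [Function.comp]; ring)
  refine ⟨D * y i1.succ, i1.insertNth 0 b, mul_ne_zero hD hi1, ?_⟩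
  refine hψt.frequently (hfr2.mono fun n hn => ?_)
  rw [Fin.sum_univ_succAbove _ i1]
  simp only [Fin.insertNth_apply_same, Fin.insertNth_apply_succAbove, zero_mul, zero_add]
  rw [← hn]
  ring

lemma claimR (O : Type) [CommRing O] [IsDomain O] [CharZero O] [Module.Free ℤ O]
    [Module.Finite ℤ O] (ρ : O →+* ℝ) {k : ℕ} {g : Fin k → ℕ}
    (hg : ∀ v, 0 < g v) {C : ℝ} (hC : 0 ≤ C) (s : ℕ) : ClaimR O ρ g C s := by
  induction s with
  | zero =>
    intro η δ hδ L hL e0 e lam P h0 h1 h2 h4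
    refine ⟨1, fun _ => 0, one_ne_zero, Eventually.frequently ?_⟩
    filter_upwards [h4, hL.eventually_gt_atTop 0] with t h5 h6
    rw [Finset.univ_eq_empty, Finset.sum_empty, zero_sub, abs_neg] at h5
    have hm : (0 : ℝ) < ((mon g (e0 t) : ℤ) : ℝ) := by exact_mod_cast mon_pos hg _
    push_cast at h5
    rw [abs_mul, abs_of_pos hm] at h5
    have h7 : |(P t : ℝ)| < 1 := by
      have h8 : |(P t : ℝ)| ≤ Real.exp (-(δ * L t)) := le_of_mul_le_mul_left h5 hm
      refine lt_of_le_of_lt h8 ?_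
      rw [Real.exp_lt_one_iff]
      have : 0 < δ * L t := by positivity
      linarith
    have h9 : P t = 0 := by
      have : |P t| < 1 := by exact_mod_cast h7
      exact Int.abs_lt_one_iff.1 this
    rw [h9]
    simp
  | succ s ih => exact claimR_succ O ρ hg hC ih

/-- **An integer close to a sum of almost-units with algebraic coefficients** is a rational
combination of these almost-units, infinitely often. -/
theorem seqLem {ι : Type} [Fintype ι] (ξ : ι → ℝ) (hξ : ∀ i, IsAlgebraic ℚ (ξ i)) (S : Finset ℕ)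
    (hS : ∀ p ∈ S, p.Prime) (C δ : ℝ) (hC : 0 ≤ C) (hδ : 0 < δ) (L : ℕ → ℝ)
    (hL : Tendsto L atTop atTop) (q : ℕ → ℕ) (r : ℕ → ι → ℕ) (lam : ℕ → ι → ℤ) (P : ℕ → ℤ)
    (hq : ∀ t, Smooth S (q t)) (hr : ∀ t i, Smooth S (r t i))
    (h0 : ∀ᶠ t in atTop, (q t : ℝ) ≤ Real.exp (C * L t))
    (h1 : ∀ᶠ t in atTop, ∀ i, (r t i : ℝ) ≤ Real.exp (C * L t))
    (h2 : ∀ ε : ℝ, 0 < ε → ∀ᶠ t in atTop, ∀ i, |(lam t i : ℝ)| ≤ Real.exp (ε * L t))
    (h4 : ∀ᶠ t in atTop, |∑ i, ξ i * ((r t i : ℝ) * lam t i) - (q t : ℝ) * P t| ≤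
      (q t : ℝ) * Real.exp (-(δ * L t))) :
    ∃ (D : ℤ) (b : ι → ℤ), D ≠ 0 ∧ ∃ᶠ t in atTop,
      D * ((q t : ℤ) * P t) = ∑ i, b i * ((r t i : ℤ) * lam t i) := by
  classical
  let f : ι ≃ Fin (Fintype.card ι) := Fintype.equivFin ι
  obtain ⟨A, d, hd, hfin, hA⟩ := exists_order (fun i => ξ (f.symm i)) (fun i => hξ _)
  let ρ : A →+* ℝ := A.val.toRingHom
  have hρ : ∀ x : A, ρ x = (x : ℝ) := fun x => rfl
  have hg : ∀ v, 0 < gens S v := fun v => (hS _ (gens_mem S v)).pos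
  have hsum : ∀ t, ∑ i, ρ (⟨(d : ℝ) * ξ (f.symm i), hA _⟩ : A) *
      ((mon (gens S) (expo S (r t (f.symm i))) * lam t (f.symm i) : ℤ) : ℝ) =
      (d : ℝ) * ∑ i, ξ i * ((r t i : ℝ) * lam t i) := by
    intro t
    rw [Finset.mul_sum, ← Equiv.sum_comp f.symm]
    apply Finset.sum_congr rfl
    intro i _
    rw [hρ, mon_expo (hr t _)]
    push_cast
    ring
  obtain ⟨D, b, hD, hfr⟩ := claimR A ρ hg hC (Fintype.card ι)
    (fun i => (⟨(d : ℝ) * ξ (f.symm i), hA _⟩ : A)) (δ / 2) (by positivity) L hL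
    (fun t => expo S (q t)) (fun t i => expo S (r t (f.symm i)))
    (fun t i => lam t (f.symm i)) (fun t => d * P t)
    (by
      filter_upwards [h0] with t h5
      rw [mon_expo (hq t)]
      exact_mod_cast h5)
    (by
      filter_upwards [h1] with t h5 i
      rw [mon_expo (hr t _)]
      exact_mod_cast h5 _)
    (by
      intro ε hε
      filter_upwards [h2 ε hε] with t h5 i
      exact h5 _)
    (by
      filter_upwards [h4, ev_const_le hL |(d : ℝ)| (δ / 2) (by positivity)] with t h5 h6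
      rw [hsum t, mon_expo (hq t)]
      have h7 : (d : ℝ) * ∑ i, ξ i * ((r t i : ℝ) * lam t i) -
          (((q t : ℤ) * (d * P t) : ℤ) : ℝ) = (d : ℝ) *
          (∑ i, ξ i * ((r t i : ℝ) * lam t i) - (q t : ℝ) * P t) := by
        push_cast; ring
      rw [h7, abs_mul]
      push_cast
      calc |(d : ℝ)| * |∑ i, ξ i * ((r t i : ℝ) * lam t i) - (q t : ℝ) * P t|
          ≤ Real.exp (δ / 2 * L t) * ((q t : ℝ) * Real.exp (-(δ * L t))) :=
            mul_le_mul h6 h5 (abs_nonneg _) (Real.exp_pos _).le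
        _ = (q t : ℝ) * (Real.exp (δ / 2 * L t) * Real.exp (-(δ * L t))) := by ring
        _ = (q t : ℝ) * Real.exp (-(δ / 2 * L t)) := by
            rw [← Real.exp_add]; congr 2; ring)
  refine ⟨D * d, fun i => b (f i), mul_ne_zero hD hd, hfr.mono fun t ht => ?_⟩
  rw [mon_expo (hq t)] at ht
  rw [← Equiv.sum_comp f.symm]
  simp only [Equiv.apply_symm_apply]
  have h5 : ∀ i, mon (gens S) (expo S (r t (f.symm i))) = (r t (f.symm i) : ℤ) := fun i =>
    mon_expo (hr t _)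
  simp only [h5] at ht
  rw [← ht]
  ring

end Pool.Agent.TH419.HX
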