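import Mathlib
import Pool.Agent.TH419.HX.Seq

/-!
# Truncated roots, subexponential sequences, roots of smooth numbers
-/

set_option autoImplicit false

open Finset Filter Topology

namespace Pool.Agent.TH419.HX

open Pool.Agent.TH419.WI

/-! ### truncated roots -/

section
open Polynomial

/-- the truncated `q`-th root of `1 + X` -/
lemma exists_root (q : ℕ) (hq : 1 ≤ q) (J : ℕ) :
    ∃ P Q : ℚ[X], P.coeff 0 = 1 ∧ P ^ q = 1 + X + X ^ (J + 1) * Q := by
  induction J with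
  | zero => exact ⟨1, -1, by simp, by simp⟩
  | succ J ih =>
    obtain ⟨P, Q, hP, h⟩ := ih
    have hq0 : (q : ℚ) ≠ 0 := by
      have : q ≠ 0 := by omega
      exact_mod_cast this
    obtain ⟨k, hk⟩ := Polynomial.powAddExpansion P (C (-(Q.coeff 0) / q) * X ^ (J + 1)) q
    have hP1 : (P ^ (q - 1)).coeff 0 = 1 := by
      rw [Polynomial.coeff_zero_eq_eval_zero] at hP ⊢
      rw [Polynomial.eval_pow, hP, one_pow]
    obtain ⟨R, hR⟩ : (X : ℚ[X]) ∣ Q + (q : ℚ[X]) * P ^ (q - 1) * C (-(Q.coeff 0) / q) +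
        k * C (-(Q.coeff 0) / q) ^ 2 * X ^ (J + 1) := by
      rw [Polynomial.X_dvd_iff]
      rw [Polynomial.coeff_zero_eq_eval_zero] at hP1 ⊢
      simp only [Polynomial.eval_add, Polynomial.eval_mul, Polynomial.eval_natCast,
        Polynomial.eval_C, Polynomial.eval_pow, Polynomial.eval_X] at hP1 ⊢
      rw [hP1, ← Polynomial.coeff_zero_eq_eval_zero]
      rw [pow_succ (0 : ℚ) J, mul_zero, mul_zero]
      field_simp
      ring
    refine ⟨P + C (-(Q.coeff 0) / q) * X ^ (J + 1), R, ?_, ?_⟩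
    · rw [Polynomial.coeff_add, hP, Polynomial.coeff_C_mul, Polynomial.coeff_X_pow,
        if_neg (by omega), mul_zero, add_zero]
    · rw [hk, h]
      have h2 : (X : ℚ[X]) ^ (J + 1 + 1) * R = X ^ (J + 1) * (Q + (q : ℚ[X]) * P ^ (q - 1) *
          C (-(Q.coeff 0) / q) + k * C (-(Q.coeff 0) / q) ^ 2 * X ^ (J + 1)) := by
        rw [hR]; ring
      rw [h2]
      ring

/-- the values of the truncated root at small real numbers -/
lemma root_real (q : ℕ) (hq : 1 ≤ q) (J : ℕ) :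
    ∃ (P : ℚ[X]) (B : ℝ), 0 < B ∧ ∀ v : ℝ, |v| ≤ 1 / B →
      1 / 2 ≤ aeval v P ∧ |(aeval v P) ^ q - (1 + v)| ≤ B * |v| ^ J := by
  obtain ⟨P, Q, hP, h⟩ := exists_root q hq J
  have hev : ∀ v : ℝ, (aeval v P) ^ q = 1 + v + v ^ (J + 1) * aeval v Q := by
    intro v
    have h1 := congrArg (aeval v) h
    simpa using h1
  have hcont : Continuous fun v : ℝ => (aeval v P : ℝ) := Polynomial.continuous_aeval P
  have hcontQ : Continuous fun v : ℝ => (aeval v Q : ℝ) := Polynomial.continuous_aeval Q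
  have h0 : (aeval (0 : ℝ) P : ℝ) = 1 := by
    rw [← Polynomial.coeff_zero_eq_aeval_zero', hP]; simp
  have h1 : ∀ᶠ v in 𝓝 (0 : ℝ), 1 / 2 ≤ (aeval v P : ℝ) := by
    have h2 : Tendsto (fun v : ℝ => (aeval v P : ℝ)) (𝓝 0) (𝓝 1) := by
      have := hcont.tendsto 0
      rwa [h0] at this
    exact h2.eventually_const_le (by norm_num)
  obtain ⟨δ, hδ, hδ2⟩ := Metric.eventually_nhds_iff.1 h1
  obtain ⟨B1, hB1⟩ := (isCompact_Icc (a := (-1 : ℝ)) (b := 1)).exists_bound_of_continuousOn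
    hcontQ.continuousOn
  refine ⟨P, max (max B1 1) (2 / δ), by positivity, fun v hv => ?_⟩
  have hB0 : 0 < max (max B1 1) (2 / δ) := by positivity
  have hv1 : |v| ≤ 1 := by
    refine hv.trans ?_
    rw [div_le_one hB0]
    exact (le_max_right _ _).trans (le_max_left _ _)
  have hvδ : |v| < δ := by
    refine lt_of_le_of_lt hv ?_
    rw [div_lt_iff₀ hB0]
    have h3 : 2 / δ ≤ max (max B1 1) (2 / δ) := le_max_right _ _
    have h4 : δ * (2 / δ) = 2 := by field_simp
    nlinarith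
  refine ⟨hδ2 (by rwa [Real.dist_eq, sub_zero]), ?_⟩
  rw [hev v]
  have h5 : 1 + v + v ^ (J + 1) * (aeval v Q : ℝ) - (1 + v) = v ^ J * (v * aeval v Q) := by ring
  rw [h5, abs_mul, abs_pow, mul_comm]
  apply mul_le_mul_of_nonneg_right _ (by positivity)
  rw [abs_mul]
  have h6 := hB1 v (abs_le.1 hv1)
  rw [Real.norm_eq_abs] at h6
  have h7 : |v| * |(aeval v Q : ℝ)| ≤ 1 * |(aeval v Q : ℝ)| :=
    mul_le_mul_of_nonneg_right hv1 (abs_nonneg _)
  have h8 : B1 ≤ max (max B1 1) (2 / δ) := (le_max_left _ _).trans (le_max_left _ _)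
  linarith

end

/-! ### subexponential sequences -/

/-- `f` is subexponential in `L` -/
def Sub (L f : ℕ → ℝ) : Prop := ∀ ε : ℝ, 0 < ε → ∀ᶠ t in atTop, |f t| ≤ Real.exp (ε * L t)

lemma Sub.const {L : ℕ → ℝ} (hL : Tendsto L atTop atTop) (c : ℝ) : Sub L fun _ => c :=
  fun ε hε => ev_const_le hL |c| ε hε

lemma Sub.mul {L f g : ℕ → ℝ} (hf : Sub L f) (hg : Sub L g) : Sub L fun t => f t * g t := by
  intro ε hε
  filter_upwards [hf (ε / 2) (by positivity), hg (ε / 2) (by positivity)] with t h1 h2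
  rw [abs_mul]
  calc |f t| * |g t| ≤ Real.exp (ε / 2 * L t) * Real.exp (ε / 2 * L t) :=
        mul_le_mul h1 h2 (abs_nonneg _) (Real.exp_pos _).le
    _ = Real.exp (ε * L t) := by rw [← Real.exp_add]; congr 1; ring

lemma Sub.pow {L f : ℕ → ℝ} (hL : Tendsto L atTop atTop) (hf : Sub L f) (n : ℕ) :
    Sub L fun t => f t ^ n := by
  induction n with
  | zero => simpa using Sub.const hL 1
  | succ n ih =>
    have := ih.mul hf
    simpa only [← pow_succ] using this

lemma Sub.prod {ι : Type} {L : ℕ → ℝ} (hL : Tendsto L atTop atTop) (s : Finset ι)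
    {f : ι → ℕ → ℝ} (hf : ∀ i ∈ s, Sub L (f i)) : Sub L fun t => ∏ i ∈ s, f i t := by
  classical
  induction s using Finset.induction_on with
  | empty => simpa using Sub.const hL 1
  | insert a s ha ih =>
    have h1 := (hf a (Finset.mem_insert_self a s)).mul
      (ih fun i hi => hf i (Finset.mem_insert_of_mem hi))
    intro ε hε
    filter_upwards [h1 ε hε] with t ht
    rw [Finset.prod_insert ha]
    exact ht

lemma Sub.mono {L f g : ℕ → ℝ} (hf : Sub L f) (h : ∀ᶠ t in atTop, |g t| ≤ |f t|) : Sub L g := by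
  intro ε hε
  filter_upwards [hf ε hε, h] with t h1 h2
  exact h2.trans h1

lemma Sub.comp {L f : ℕ → ℝ} (hf : Sub L f) {ψ : ℕ → ℕ} (hψ : Tendsto ψ atTop atTop) :
    Sub (L ∘ ψ) (f ∘ ψ) := fun ε hε => hψ.eventually (hf ε hε)

/-! ### smooth numbers -/

lemma smooth_one (S : Finset ℕ) : Smooth S 1 := ⟨one_ne_zero, by simp⟩

lemma smooth_mul {S : Finset ℕ} {a b : ℕ} (ha : Smooth S a) (hb : Smooth S b) :
    Smooth S (a * b) := by
  refine ⟨mul_ne_zero ha.1 hb.1, ?_⟩
  rw [Nat.primeFactors_mul ha.1 hb.1]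
  exact Finset.union_subset ha.2 hb.2

lemma smooth_pow {S : Finset ℕ} {a : ℕ} (ha : Smooth S a) (n : ℕ) : Smooth S (a ^ n) := by
  induction n with
  | zero => rw [pow_zero]; exact smooth_one S
  | succ n ih => rw [pow_succ]; exact smooth_mul ih ha

lemma smooth_prod {ι : Type} {S : Finset ℕ} (s : Finset ι) {f : ι → ℕ}
    (hf : ∀ i ∈ s, Smooth S (f i)) : Smooth S (∏ i ∈ s, f i) := by
  classical
  induction s using Finset.induction_on with
  | empty => rw [Finset.prod_empty]; exact smooth_one S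
  | insert a s ha ih =>
    rw [Finset.prod_insert ha]
    exact smooth_mul (hf a (Finset.mem_insert_self a s)) (ih fun i hi => hf i (Finset.mem_insert_of_mem hi))

lemma smooth_prime {S : Finset ℕ} {p : ℕ} (hp : p.Prime) (h : p ∈ S) : Smooth S p := by
  refine ⟨hp.ne_zero, ?_⟩
  rw [hp.primeFactors]
  simpa using h

lemma smooth_eq_prod {S : Finset ℕ} {r : ℕ} (hr : Smooth S r) :
    r = ∏ p ∈ S, p ^ (r.factorization p) := by
  obtain ⟨h1, h2⟩ := hr
  conv_lhs => rw [← Nat.prod_factorization_pow_eq_self h1]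
  rw [Finsupp.prod_of_support_subset]
  · rw [Nat.support_factorization]; exact h2
  · intro i _
    simp

/-- a smooth number is a `q`-th power up to finitely many factors -/
lemma smooth_root (S : Finset ℕ) (hS : ∀ p ∈ S, p.Prime) (q : ℕ) (hq : 1 ≤ q) :
    ∃ B : ℕ, ∀ r : ℕ, Smooth S r → ∃ α δ : ℕ, Smooth S α ∧ r = δ * α ^ q ∧ δ ≤ B ∧ 1 ≤ δ ∧
      α ≤ r := by
  refine ⟨∏ p ∈ S, p ^ q, fun r hr => ⟨∏ p ∈ S, p ^ (r.factorization p / q),
    ∏ p ∈ S, p ^ (r.factorization p % q), ?_, ?_, ?_, ?_, ?_⟩⟩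
  · exact smooth_prod S fun p hp => smooth_pow (smooth_prime (hS p hp) hp) _
  · rw [← Finset.prod_pow, ← Finset.prod_mul_distrib]
    conv_lhs => rw [smooth_eq_prod hr]
    apply Finset.prod_congr rfl
    intro p _
    rw [← pow_mul, ← pow_add, add_comm, mul_comm, Nat.div_add_mod]
  · apply Finset.prod_le_prod' 
    intro p hp
    exact Nat.pow_le_pow_right (hS p hp).pos (Nat.mod_lt _ (by omega)).le
  · apply Nat.one_le_iff_ne_zero.2
    exact Finset.prod_ne_zero_iff.2 fun p hp => pow_ne_zero _ (hS p hp).ne_zero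
  · conv_rhs => rw [smooth_eq_prod hr]
    apply Finset.prod_le_prod'
    intro p hp
    exact Nat.pow_le_pow_right (hS p hp).pos (Nat.div_le_self _ _)

/-- the group generated by the primes in `S` -/
def GamS (S : Finset ℕ) : Subgroup ℚˣ :=
  Subgroup.closure {w : ℚˣ | ∃ p ∈ S, (w : ℚ) = p}

lemma gamS_fg (S : Finset ℕ) : (GamS S).FG := by
  refine (Subgroup.fg_iff _).2 ⟨_, rfl, ?_⟩
  have h1 : {w : ℚˣ | ∃ p ∈ S, (w : ℚ) = p} ⊆
      (fun w : ℚˣ => (w : ℚ)) ⁻¹' ((fun p : ℕ => (p : ℚ)) '' (S : Set ℕ)) := by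
    rintro w ⟨p, hp, hw⟩
    exact ⟨p, hp, hw.symm⟩
  refine Set.Finite.subset ?_ h1
  exact ((S.finite_toSet).image _).preimage (fun a _ b _ h => Units.ext h)

lemma mem_gamS {S : Finset ℕ} {r : ℕ} (hr : Smooth S r) (w : ℚˣ) (hw : (w : ℚ) = r) :
    w ∈ GamS S := by
  classical
  have h1 : ∀ p ∈ S, (r.factorization p ≠ 0 → (p : ℚ) ≠ 0) := by
    intro p _ h
    have : p ≠ 0 := by
      rintro rfl
      simp at h
    exact_mod_cast this
  let f : ℕ → ℚˣ := fun p => if h : (p : ℚ) ≠ 0 ∧ p ∈ S then Units.mk0 (p : ℚ) h.1 else 1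
  have h2 : w = ∏ p ∈ S, f p ^ (r.factorization p) := by
    apply Units.ext
    rw [hw, Units.coe_prod]
    conv_lhs => rw [smooth_eq_prod hr]
    push_cast
    apply Finset.prod_congr rfl
    intro p hp
    by_cases h3 : r.factorization p = 0
    · rw [h3, pow_zero, pow_zero]
    · have h4 : f p = Units.mk0 (p : ℚ) (h1 p hp h3) := dif_pos ⟨h1 p hp h3, hp⟩
      rw [h4]
      rfl
  rw [h2]
  refine Subgroup.prod_mem _ fun p hp => Subgroup.pow_mem _ ?_ _
  by_cases h3 : (p : ℚ) ≠ 0 ∧ p ∈ S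
  · have h4 : f p = Units.mk0 (p : ℚ) h3.1 := dif_pos h3
    rw [h4]
    exact Subgroup.subset_closure ⟨p, h3.2, rfl⟩
  · have h4 : f p = 1 := dif_neg h3
    rw [h4]
    exact one_mem _

end Pool.Agent.TH419.HX
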