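import Mathlib
import Pool.Agent.TH419.HX.Root

/-!
# Integers close to roots of sparse sums of almost-units are sums of almost-units
-/

set_option autoImplicit false

open Finset Filter Topology

namespace Pool.Agent.TH419.HX

open Pool.Agent.TH419.WI

lemma abs_sub_mul_pow_le {a b : ℝ} (ha : 0 ≤ a) (hb : 0 ≤ b) (q : ℕ) (hq : 1 ≤ q) :
    |a - b| * b ^ (q - 1) ≤ |a ^ q - b ^ q| := by
  rw [← geom_sum₂_mul, abs_mul, mul_comm]
  apply mul_le_mul_of_nonneg_right _ (abs_nonneg _)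
  have h1 : ∀ i ∈ Finset.range q, 0 ≤ a ^ i * b ^ (q - 1 - i) := fun i _ => by positivity
  have h2 := Finset.single_le_sum h1 (Finset.mem_range.2 (by omega : 0 < q))
  simp only [pow_zero, one_mul, Nat.sub_zero] at h2
  exact h2.trans (le_abs_self _)

/-- the estimate at one point -/
lemma est {q J : ℕ} (hq : 1 ≤ q) {E0 W v Z0 Pv G Y x1 B : ℝ} (hE0 : 0 < E0) (hv : v = W / E0)
    (hZ0 : 0 < Z0) (hZ : Z0 ^ q = E0) (hP : 1 / 2 ≤ Pv)
    (hP2 : |Pv ^ q - (1 + v)| ≤ B * |v| ^ J) (hG : 1 ≤ G) (hGq : G ^ q = E0 + W) (hY0 : 0 ≤ Y)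
    (hY : |Y ^ q - G ^ q| ≤ G ^ (q - 1) * x1) (hx0 : 0 ≤ x1) (hx : x1 ≤ 1 / 2)
    (hEB : E0 * (B * |v| ^ J) ≤ x1) : |Y - Z0 * Pv| ≤ 2 ^ q * x1 := by
  have h1 : (Z0 * Pv) ^ q - G ^ q = E0 * (Pv ^ q - (1 + v)) := by
    rw [mul_pow, hZ, hGq, hv]; field_simp
  have h2 : |(Z0 * Pv) ^ q - G ^ q| ≤ x1 := by
    rw [h1, abs_mul, abs_of_pos hE0]
    exact (mul_le_mul_of_nonneg_left hP2 hE0.le).trans hEB
  have hGq1 : 1 ≤ G ^ q := one_le_pow₀ hG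
  have hGq2 : 1 ≤ G ^ (q - 1) := one_le_pow₀ hG
  have hZP : 0 ≤ Z0 * Pv := mul_nonneg hZ0.le (by linarith)
  have h3 : (G / 2) ^ q ≤ (Z0 * Pv) ^ q := by
    have h4 := abs_le.1 h2
    have h5 : (G / 2) ^ q ≤ G ^ q / 2 := by
      rw [div_pow]
      apply div_le_div_of_nonneg_left (by positivity) (by norm_num)
      exact le_self_pow₀ (by norm_num) (by omega)
    linarith [h4.1]
  have h4 : G / 2 ≤ Z0 * Pv := (pow_le_pow_iff_left₀ (by positivity) hZP (by omega)).1 h3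
  have h5 : |Y - Z0 * Pv| * (G / 2) ^ (q - 1) ≤ 2 * G ^ (q - 1) * x1 := by
    calc |Y - Z0 * Pv| * (G / 2) ^ (q - 1) ≤ |Y - Z0 * Pv| * (Z0 * Pv) ^ (q - 1) :=
          mul_le_mul_of_nonneg_left (pow_le_pow_left₀ (by positivity) h4 _) (abs_nonneg _)
      _ ≤ |Y ^ q - (Z0 * Pv) ^ q| := abs_sub_mul_pow_le hY0 hZP q hq
      _ ≤ |Y ^ q - G ^ q| + |(Z0 * Pv) ^ q - G ^ q| := by
          have : Y ^ q - (Z0 * Pv) ^ q = (Y ^ q - G ^ q) - ((Z0 * Pv) ^ q - G ^ q) := by ring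
          rw [this]
          exact abs_sub _ _
      _ ≤ G ^ (q - 1) * x1 + x1 := add_le_add hY h2
      _ ≤ 2 * G ^ (q - 1) * x1 := by nlinarith
  have h6 : (G / 2) ^ (q - 1) = G ^ (q - 1) / 2 ^ (q - 1) := div_pow _ _ _
  have h7 : 0 < G ^ (q - 1) := by positivity
  rw [h6] at h5
  have h8 : (2 : ℝ) ^ q = 2 * 2 ^ (q - 1) := by
    rw [← pow_succ']; congr 1; omega
  rw [h8]
  have h9 : |Y - Z0 * Pv| * (G ^ (q - 1) / 2 ^ (q - 1)) =
      |Y - Z0 * Pv| / 2 ^ (q - 1) * G ^ (q - 1) := by ring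
  rw [h9] at h5
  have h10 : |Y - Z0 * Pv| / 2 ^ (q - 1) ≤ 2 * x1 := by
    have h11 : 2 * G ^ (q - 1) * x1 = 2 * x1 * G ^ (q - 1) := by ring
    rw [h11] at h5
    exact le_of_mul_le_mul_right h5 h7
  rw [div_le_iff₀ (by positivity)] at h10
  linarith

/-- one of finitely many values is attained frequently -/
lemma freq_pair {a b : ℕ → ℕ} {A B : ℕ} (ha : ∀ t, a t ≤ A) (hb : ∀ t, b t ≤ B) :
    ∃ a0 b0, ∃ᶠ t in atTop, a t = a0 ∧ b t = b0 := by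
  by_contra hcon
  push Not at hcon
  have h1 : ∀ᶠ t in atTop, ∀ x ∈ Finset.range (A + 1) ×ˢ Finset.range (B + 1),
      ¬ (a t = x.1 ∧ b t = x.2) := by
    rw [Filter.eventually_all_finset]
    intro x _
    filter_upwards [hcon x.1 x.2] with t h2 h3
    exact h2 h3.1 h3.2
  obtain ⟨t, ht⟩ := h1.exists
  refine ht (a t, b t) ?_ ⟨rfl, rfl⟩
  rw [Finset.mem_product, Finset.mem_range, Finset.mem_range]
  exact ⟨Nat.lt_succ_of_le (ha t), Nat.lt_succ_of_le (hb t)⟩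

/-- the expansion of a polynomial in a sparse sum -/
lemma expand {ι : Type} [Fintype ι] (P : Polynomial ℚ) (θ al hh E1 ρ : ℝ) (r lam : ι → ℝ)
    (hE : E1 * ρ ≠ 0) :
    ∑ σ : (Σ j : Fin (P.natDegree + 1), (Fin (j : ℕ) → ι)),
      θ * (P.coeff (σ.1 : ℕ) : ℝ) * ((al * ρ ^ (P.natDegree - (σ.1 : ℕ)) * ∏ i, r (σ.2 i)) *
        (hh * E1 ^ (P.natDegree - (σ.1 : ℕ)) * ∏ i, lam (σ.2 i))) =
    (E1 * ρ) ^ P.natDegree * ((θ * hh * al) *
      Polynomial.aeval ((∑ i, r i * lam i) / (E1 * ρ)) P) := by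
  rw [Fintype.sum_sigma]
  have h1 : ∀ j : Fin (P.natDegree + 1), ∑ g : Fin (j : ℕ) → ι,
      θ * (P.coeff (j : ℕ) : ℝ) * ((al * ρ ^ (P.natDegree - (j : ℕ)) * ∏ i, r (g i)) *
        (hh * E1 ^ (P.natDegree - (j : ℕ)) * ∏ i, lam (g i))) =
      (E1 * ρ) ^ P.natDegree * (θ * hh * al) * ((P.coeff (j : ℕ) : ℝ) *
        ((∑ i, r i * lam i) / (E1 * ρ)) ^ (j : ℕ)) := by
    intro j
    have h2 : ∀ g : Fin (j : ℕ) → ι, θ * (P.coeff (j : ℕ) : ℝ) *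
        ((al * ρ ^ (P.natDegree - (j : ℕ)) * ∏ i, r (g i)) *
        (hh * E1 ^ (P.natDegree - (j : ℕ)) * ∏ i, lam (g i))) =
        (θ * hh * al * (P.coeff (j : ℕ) : ℝ) * (E1 * ρ) ^ (P.natDegree - (j : ℕ))) *
          ∏ i, (r (g i) * lam (g i)) := by
      intro g
      rw [Finset.prod_mul_distrib, mul_pow]
      ring
    simp only [h2]
    rw [← Finset.mul_sum, ← Fintype.sum_pow (fun i => r i * lam i) (j : ℕ)]
    have h3 : (E1 * ρ) ^ P.natDegree = (E1 * ρ) ^ (P.natDegree - (j : ℕ)) * (E1 * ρ) ^ (j : ℕ) := by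
      rw [← pow_add]; congr 1; have := j.2; omega
    rw [h3, div_pow]
    field_simp
  simp only [h1]
  rw [← Finset.mul_sum, Polynomial.aeval_eq_sum_range, Finset.sum_range, mul_assoc]
  simp only [Algebra.smul_def]
  rfl

end Pool.Agent.TH419.HX
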