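import Mathlib
import Pool.Agent.TH419.HX.Main

/-!
# Sparse sums with a dominating term: sizes
-/

set_option autoImplicit false

open Finset Filter Topology

namespace Pool.Agent.TH419.HX

open Pool.Agent.TH419.WI

/-- a product of some of the terms is small unless all of them are the dominating one -/
lemma prod_le_dom {k j d : ℕ} {u : Fin (k + 1) → ℕ} {η : ℝ} (hη1 : η ≤ 1)
    (hu : ∀ i, 1 ≤ u i) (hdom : ∀ i, i ≠ 0 → (u i : ℝ) ≤ (u 0 : ℝ) ^ (1 - η))
    (hη : 0 ≤ η) (hj : j ≤ d) (g : Fin j → Fin (k + 1)) (h : j < d ∨ ∃ i, g i ≠ 0) :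
    ((∏ i, u (g i) : ℕ) : ℝ) ≤ ((u 0 ^ d : ℕ) : ℝ) * Real.exp (-(η * Real.log (u 0))) := by
  have h0 : (1 : ℝ) ≤ u 0 := by exact_mod_cast hu 0
  have h0' : (0 : ℝ) < u 0 := by linarith
  have hexp : Real.exp (-(η * Real.log (u 0))) = (u 0 : ℝ) ^ (-η) := by
    rw [Real.rpow_def_of_pos h0']; congr 1; ring
  have hle : ∀ i, (u i : ℝ) ≤ u 0 := by
    intro i
    by_cases hi : i = 0
    · rw [hi]
    · refine (hdom i hi).trans ?_
      calc (u 0 : ℝ) ^ (1 - η) ≤ (u 0 : ℝ) ^ (1 : ℝ) :=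
            Real.rpow_le_rpow_of_exponent_le h0 (by linarith)
        _ = u 0 := Real.rpow_one _
  rw [hexp]
  push_cast
  rcases h with h | ⟨i0, hi0⟩
  · calc ∏ i, (u (g i) : ℝ) ≤ ∏ _i : Fin j, (u 0 : ℝ) :=
          Finset.prod_le_prod (fun i _ => by positivity) fun i _ => hle _
      _ = (u 0 : ℝ) ^ j := by rw [Finset.prod_const, Finset.card_univ, Fintype.card_fin]
      _ ≤ (u 0 : ℝ) ^ (d - 1) := pow_le_pow_right₀ h0 (by omega)
      _ = (u 0 : ℝ) ^ d * (u 0 : ℝ) ^ (-1 : ℝ) := by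
          rw [Real.rpow_neg_one]
          have h2 : (u 0 : ℝ) ^ d = (u 0 : ℝ) ^ (d - 1) * u 0 := by
            rw [← pow_succ]; congr 1; omega
          rw [h2]; field_simp
      _ ≤ (u 0 : ℝ) ^ d * (u 0 : ℝ) ^ (-η) := by
          apply mul_le_mul_of_nonneg_left _ (by positivity)
          exact Real.rpow_le_rpow_of_exponent_le h0 (by linarith)
  · have hj0 : 0 < j := by have := i0.2; omega
    calc ∏ i, (u (g i) : ℝ) = (∏ i ∈ Finset.univ.erase i0, (u (g i) : ℝ)) * u (g i0) := by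
          rw [Finset.prod_erase_mul _ _ (Finset.mem_univ i0)]
      _ ≤ (∏ _i ∈ Finset.univ.erase i0, (u 0 : ℝ)) * (u 0 : ℝ) ^ (1 - η) :=
          mul_le_mul (Finset.prod_le_prod (fun i _ => by positivity) fun i _ => hle _)
            (hdom _ hi0) (by positivity) (by positivity)
      _ = (u 0 : ℝ) ^ (j - 1) * (u 0 : ℝ) ^ (1 - η) := by
          rw [Finset.prod_const, Finset.card_erase_of_mem (Finset.mem_univ _), Finset.card_univ,
            Fintype.card_fin]
      _ ≤ (u 0 : ℝ) ^ (d - 1) * (u 0 : ℝ) ^ (1 - η) :=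
          mul_le_mul_of_nonneg_right (pow_le_pow_right₀ h0 (by omega)) (by positivity)
      _ = (u 0 : ℝ) ^ d * (u 0 : ℝ) ^ (-η) := by
          have h2 : (u 0 : ℝ) ^ d = (u 0 : ℝ) ^ (d - 1) * u 0 := by
            rw [← pow_succ]; congr 1; omega
          rw [h2, sub_eq_add_neg, Real.rpow_add h0', Real.rpow_one]
          ring

/-- the sizes of the coefficients and of the dominating term -/
lemma sizes {k : ℕ} {η : ℝ} (hη : 0 < η) (u : ℕ → Fin (k + 1) → ℕ) (a : ℕ → Fin (k + 1) → ℤ)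
    (M X : ℕ → ℝ) (hM : ∀ t, 1 ≤ M t) (hu : ∀ t i, 1 ≤ u t i)
    (hdom : ∀ t i, i ≠ 0 → (u t i : ℝ) ≤ (u t 0 : ℝ) ^ (1 - η))
    (ha : ∀ t i, |(a t i : ℝ)| ≤ M t) (ha0 : ∀ t, a t 0 ≠ 0)
    (hX : ∀ t, X t = |∑ i, (a t i : ℝ) * u t i|) (hXt : Tendsto X atTop atTop)
    (hMX : ∀ ε : ℝ, 0 < ε → ∀ᶠ t in atTop, M t ≤ X t ^ ε) :
    Tendsto (fun t => Real.log (u t 0)) atTop atTop ∧ Sub (fun t => Real.log (u t 0)) M ∧
    (∀ᶠ t in atTop, X t ≤ Real.exp (2 * Real.log (u t 0))) ∧
    (∀ᶠ t in atTop, Real.exp (1 / 2 * Real.log (u t 0)) ≤ X t) ∧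
    (∀ᶠ t in atTop, (u t 0 : ℝ) / 2 ≤ X t) := by
  have h0 : ∀ t, (1 : ℝ) ≤ u t 0 := fun t => by exact_mod_cast hu t 0
  have h0' : ∀ t, (0 : ℝ) < u t 0 := fun t => by have := h0 t; linarith
  have hle : ∀ t i, (u t i : ℝ) ≤ u t 0 := by
    intro t i
    by_cases hi : i = 0
    · rw [hi]
    · refine (hdom t i hi).trans ?_
      calc (u t 0 : ℝ) ^ (1 - η) ≤ (u t 0 : ℝ) ^ (1 : ℝ) :=
            Real.rpow_le_rpow_of_exponent_le (h0 t) (by linarith)
        _ = u t 0 := Real.rpow_one _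
  have hXu : ∀ t, X t ≤ (k + 1) * M t * u t 0 := by
    intro t
    rw [hX]
    calc |∑ i, (a t i : ℝ) * u t i| ≤ ∑ i, |(a t i : ℝ) * u t i| := Finset.abs_sum_le_sum_abs _ _
      _ ≤ ∑ _i : Fin (k + 1), M t * u t 0 := by
          apply Finset.sum_le_sum
          intro i _
          rw [abs_mul, abs_of_nonneg (by positivity : (0 : ℝ) ≤ u t i)]
          exact mul_le_mul (ha t i) (hle t i) (by positivity) (by linarith [hM t])
      _ = (k + 1) * M t * u t 0 := by
          rw [Finset.sum_const, Finset.card_univ, Fintype.card_fin, nsmul_eq_mul]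
          push_cast; ring
  have hX1 : ∀ᶠ t in atTop, 1 < X t := hXt.eventually_gt_atTop 1
  -- the dominating term is at least the square root
  have hsq : ∀ᶠ t in atTop, 1 / 2 * Real.log (X t) ≤ Real.log (u t 0) := by
    have hk : ∀ᶠ t in atTop, ((k : ℝ) + 1) ≤ X t ^ (1 / 4 : ℝ) :=
      ((tendsto_rpow_atTop (by norm_num : (0 : ℝ) < 1 / 4)).comp hXt).eventually_ge_atTop _
    filter_upwards [hX1, hk, hMX (1 / 4) (by norm_num)] with t h1 h2 h3
    have hX0 : 0 < X t := by linarith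
    have h4 : X t ≤ X t ^ (1 / 2 : ℝ) * u t 0 := by
      refine (hXu t).trans ?_
      apply mul_le_mul_of_nonneg_right _ (h0' t).le
      calc ((k : ℝ) + 1) * M t ≤ X t ^ (1 / 4 : ℝ) * X t ^ (1 / 4 : ℝ) :=
            mul_le_mul h2 h3 (by linarith [hM t]) (by positivity)
        _ = X t ^ (1 / 2 : ℝ) := by rw [← Real.rpow_add hX0]; norm_num
    have h5 := Real.log_le_log hX0 h4
    rw [Real.log_mul (by positivity) (h0' t).ne', Real.log_rpow hX0] at h5
    linarith
  have hlogX : Tendsto (fun t => Real.log (X t)) atTop atTop := Real.tendsto_log_atTop.comp hXt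
  have hL : Tendsto (fun t => Real.log (u t 0)) atTop atTop :=
    tendsto_atTop_mono' _ hsq (hlogX.const_mul_atTop (by norm_num))
  have hMS : Sub (fun t => Real.log (u t 0)) M := by
    intro ε hε
    filter_upwards [hsq, hMX (ε / 2) (by positivity), hX1] with t h1 h2 h3
    have hX0 : 0 < X t := by linarith
    rw [abs_of_nonneg (by linarith [hM t])]
    refine h2.trans ?_
    rw [Real.rpow_def_of_pos hX0]
    apply Real.exp_le_exp.2
    nlinarith
  have hlow : ∀ᶠ t in atTop, (u t 0 : ℝ) / 2 ≤ X t := by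
    filter_upwards [hMS (η / 2) (by positivity), ev_const_le hL (2 * (k : ℝ)) (η / 2)
      (by positivity)] with t h1 h2
    have h3 : |(a t 0 : ℝ) * u t 0| ≤ X t + ∑ i : Fin k, |(a t i.succ : ℝ) * u t i.succ| := by
      have h4 : (a t 0 : ℝ) * u t 0 = (∑ i, (a t i : ℝ) * u t i) -
          ∑ i : Fin k, (a t i.succ : ℝ) * u t i.succ := by
        rw [Fin.sum_univ_succ]; ring
      rw [hX, h4]
      refine (abs_sub _ _).trans ?_
      exact add_le_add le_rfl (Finset.abs_sum_le_sum_abs _ _)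
    have h5 : (u t 0 : ℝ) ≤ |(a t 0 : ℝ) * u t 0| := by
      rw [abs_mul, abs_of_pos (h0' t)]
      have h6 : (1 : ℝ) ≤ |(a t 0 : ℝ)| := by
        have : 1 ≤ |a t 0| := Int.one_le_abs (ha0 t)
        exact_mod_cast this
      nlinarith [h0' t]
    have hMa : |M t| = M t := abs_of_nonneg (by linarith [hM t])
    have h6 : ∑ i : Fin k, |(a t i.succ : ℝ) * u t i.succ| ≤ (u t 0 : ℝ) / 2 := by
      calc ∑ i : Fin k, |(a t i.succ : ℝ) * u t i.succ| ≤
            ∑ _i : Fin k, M t * (u t 0 : ℝ) ^ (1 - η) := by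
            apply Finset.sum_le_sum
            intro i _
            rw [abs_mul, abs_of_nonneg (by positivity : (0 : ℝ) ≤ u t i.succ)]
            exact mul_le_mul (ha t _) (hdom t _ (Fin.succ_ne_zero i)) (by positivity)
              (by linarith [hM t])
        _ = k * (M t * (u t 0 : ℝ) ^ (1 - η)) := by
            rw [Finset.sum_const, Finset.card_univ, Fintype.card_fin, nsmul_eq_mul]
        _ = k * M t * ((u t 0 : ℝ) * Real.exp (-(η * Real.log (u t 0)))) := by
            rw [sub_eq_add_neg, Real.rpow_add (h0' t), Real.rpow_one,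
              Real.rpow_def_of_pos (h0' t) (-η)]
            have h7 : Real.log (u t 0) * -η = -(η * Real.log (u t 0)) := by ring
            rw [h7]
            ring
        _ ≤ (Real.exp (η / 2 * Real.log (u t 0)) / 2) * Real.exp (η / 2 * Real.log (u t 0)) *
            ((u t 0 : ℝ) * Real.exp (-(η * Real.log (u t 0)))) := by
            apply mul_le_mul_of_nonneg_right _ (by positivity)
            rw [hMa] at h1
            exact mul_le_mul (by linarith) h1 (by linarith [hM t]) (by positivity)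
        _ = (u t 0 : ℝ) / 2 * (Real.exp (η / 2 * Real.log (u t 0)) *
            Real.exp (η / 2 * Real.log (u t 0)) * Real.exp (-(η * Real.log (u t 0)))) := by ring
        _ = (u t 0 : ℝ) / 2 := by
            rw [← Real.exp_add, ← Real.exp_add]
            have h7 : η / 2 * Real.log (u t 0) + η / 2 * Real.log (u t 0) +
                -(η * Real.log (u t 0)) = 0 := by ring
            rw [h7, Real.exp_zero, mul_one]
    linarith
  refine ⟨hL, hMS, ?_, ?_, hlow⟩
  · filter_upwards [hsq, hX1] with t h1 h2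
    have h3 : X t = Real.exp (Real.log (X t)) := (Real.exp_log (by linarith)).symm
    rw [h3]
    apply Real.exp_le_exp.2
    linarith
  · filter_upwards [hlow, ev_const_le hL 2 (1 / 2) (by norm_num)] with t h1 h2
    refine le_trans ?_ h1
    have h3 : (u t 0 : ℝ) = Real.exp (1 / 2 * Real.log (u t 0)) *
        Real.exp (1 / 2 * Real.log (u t 0)) := by
      rw [← Real.exp_add]
      have h4 : 1 / 2 * Real.log (u t 0) + 1 / 2 * Real.log (u t 0) = Real.log (u t 0) := by ring
      rw [h4, Real.exp_log (h0' t)]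
    have h5 := Real.exp_pos (1 / 2 * Real.log (u t 0))
    nlinarith

end Pool.Agent.TH419.HX
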