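import Mathlib
import Pool.Agent.TH419.HX.Setup
import Pool.Agent.TH551.SU.Sui
import Pool.Agent.TH551.SU.CS
import Pool.Agent.TH551.SU.WT
import Pool.Agent.TH551.HE.Rat
import Pool.Agent.TH551.HE.App

/-!
# Integral points on hyperelliptic curves with a sparse abscissa
-/

set_option autoImplicit false

open Finset Filter Topology

namespace Pool.Agent.TH419.HX

open Pool.Agent.TH419.WI

/-- the sum of the terms which do not dominate is small -/
lemma W_small {ι : Type} [Fintype ι] {η : ℝ} (hη : 0 < η) {L : ℕ → ℝ}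
    (hL : Tendsto L atTop atTop) (ρ : ℕ → ℕ) (r : ℕ → ι → ℕ) (lam : ℕ → ι → ℤ)
    (h1 : ∀ᶠ t in atTop, ∀ i, (r t i : ℝ) ≤ ρ t * Real.exp (-(η * L t)))
    (h2 : ∀ i, Sub L fun t => (lam t i : ℝ)) :
    ∀ᶠ t in atTop, |∑ i, (r t i : ℝ) * lam t i| ≤ (ρ t : ℝ) / 2 := by
  have hl : ∀ᶠ t in atTop, ∀ i, |(lam t i : ℝ)| ≤ Real.exp (η / 4 * L t) :=
    Filter.eventually_all.2 fun i => h2 i (η / 4) (by positivity)
  filter_upwards [h1, hl, ev_const_le hL (Fintype.card ι : ℝ) (η / 4) (by positivity),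
    ev_const_le hL 2 (η / 2) (by positivity)] with t hrρ hlam hcard h2e
  have hx : Real.exp (-(η / 2 * L t)) ≤ 1 / 2 := by
    rw [Real.exp_neg, one_div]
    exact inv_anti₀ (by norm_num) h2e
  calc |∑ i, (r t i : ℝ) * lam t i| ≤ ∑ i, |(r t i : ℝ) * lam t i| :=
        Finset.abs_sum_le_sum_abs _ _
    _ ≤ ∑ _i : ι, ρ t * Real.exp (-(3 * η / 4 * L t)) := by
        apply Finset.sum_le_sum
        intro i _
        rw [abs_mul, abs_of_nonneg (by positivity : (0 : ℝ) ≤ r t i)]
        calc (r t i : ℝ) * |(lam t i : ℝ)| ≤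
            (ρ t * Real.exp (-(η * L t))) * Real.exp (η / 4 * L t) :=
              mul_le_mul (hrρ i) (hlam i) (abs_nonneg _) (by positivity)
          _ = ρ t * Real.exp (-(3 * η / 4 * L t)) := by
              rw [mul_assoc, ← Real.exp_add]; congr 2; ring
    _ = (Fintype.card ι : ℝ) * (ρ t * Real.exp (-(3 * η / 4 * L t))) := by
        rw [Finset.sum_const, Finset.card_univ, nsmul_eq_mul]
    _ ≤ Real.exp (η / 4 * L t) * (ρ t * Real.exp (-(3 * η / 4 * L t))) :=
        mul_le_mul_of_nonneg_right hcard (by positivity)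
    _ = ρ t * (Real.exp (η / 4 * L t) * Real.exp (-(3 * η / 4 * L t))) := by ring
    _ = ρ t * Real.exp (-(η / 2 * L t)) := by
        rw [← Real.exp_add]; congr 2; ring
    _ ≤ ρ t * (1 / 2) := mul_le_mul_of_nonneg_left hx (by positivity)
    _ = (ρ t : ℝ) / 2 := by ring

/-- helper551's theorem for hyperelliptic curves -/
theorem app551 (d r : ℕ) (hd : 3 ≤ d) (Γ : Subgroup ℚˣ) (hΓ : Γ.FG) :
    ∃ C : ℝ, ∀ f : Polynomial ℤ, f.natDegree = d → (f.map (Int.castRingHom ℚ)).Separable →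
      ∀ M : ℝ, 1 ≤ M → (∀ i, |(f.coeff i : ℝ)| ≤ M) →
      ∀ (u : Fin r → Γ) (a b : Fin r → ℤ), (∀ j, |(a j : ℝ)| ≤ M) → (∀ j, |(b j : ℝ)| ≤ M) →
      ∀ x y : ℚ, x = ∑ j, ((u j : ℚˣ) : ℚ) * a j → y = ∑ j, ((u j : ℚˣ) : ℚ) * b j →
        y ^ 2 = (f.map (Int.castRingHom ℚ)).eval x →
        Real.log (max |(x.num : ℝ)| (x.den : ℝ)) ≤ C * (1 + Real.log M) :=
  Pool.Agent.TH551.HE.app
    (Pool.Agent.TH551.SU.Uni.uni (Pool.Agent.TH551.SU.CS.cs Pool.Agent.TH551.SU.SUI.sui)
      Pool.Agent.TH551.SU.WT.wt)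
    (fun f hf hd P Q Y hQ h => Pool.Agent.TH551.HE.no_param ℚ f hf hd P Q Y hQ h) d r hd Γ hΓ

/-- the expansion of the value of a polynomial at a sum -/
lemma eval_expand {k d : ℕ} (f : Polynomial ℤ) (hfd : f.natDegree = d) (a : Fin (k + 1) → ℤ)
    (u : Fin (k + 1) → ℕ) :
    f.eval (∑ i, a i * (u i : ℤ)) = ∑ σ : (Σ j : Fin (d + 1), (Fin (j : ℕ) → Fin (k + 1))),
      (f.coeff (σ.1 : ℕ) * ∏ i, a (σ.2 i)) * ∏ i, (u (σ.2 i) : ℤ) := by
  rw [Fintype.sum_sigma, Polynomial.eval_eq_sum_range, hfd, Finset.sum_range]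
  apply Finset.sum_congr rfl
  intro j _
  rw [Fintype.sum_pow (fun i => a i * (u i : ℤ)) (j : ℕ), Finset.mul_sum]
  apply Finset.sum_congr rfl
  intro g _
  simp only
  rw [Finset.prod_mul_distrib]
  ring

/-- **Integral points with a sparse abscissa on hyperelliptic curves.** -/
theorem hyp (d k H : ℕ) (hd : 3 ≤ d) (S : Finset ℕ) (hS : ∀ p ∈ S, p.Prime) (η : ℝ)
    (hη : 0 < η) :
    ∃ C : ℝ, ∀ f : Polynomial ℤ, f.natDegree = d → (f.map (Int.castRingHom ℚ)).Separable →
      ∀ M : ℝ, 1 ≤ M → (∀ i, |(f.coeff i : ℝ)| ≤ M) →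
      ∀ (u : Fin (k + 1) → ℕ) (a : Fin (k + 1) → ℤ), (∀ i, Smooth S (u i)) →
        (∀ i, i ≠ 0 → (u i : ℝ) ≤ (u 0 : ℝ) ^ (1 - η)) → a 0 ≠ 0 → (∀ i, |(a i : ℝ)| ≤ M) →
        ∀ e h : ℤ, f.leadingCoeff * a 0 ^ d = e * h ^ 2 → |e| ≤ H →
        ∀ x y : ℤ, x = ∑ i, a i * (u i : ℤ) → y ^ 2 = f.eval x →
        Real.log (max |(x : ℝ)| 1) ≤ C * (1 + Real.log M) := by
  classical
  let ι : Type := Σ j : Fin (d + 1), (Fin (j : ℕ) → Fin (k + 1))
  have hη'0 : 0 < min η 1 := lt_min hη one_pos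
  obtain ⟨N, hN⟩ := nearRoot (ι := ι) S hS 2 H (by norm_num) (d : ℝ) (min η 1) 1
    (by positivity) hη'0 one_pos
  obtain ⟨C0, hC0⟩ := app551 d (k + 1 + N) hd (GamS S) (gamS_fg S)
  by_contra hcon
  push Not at hcon
  choose f hfd hsep M hM hcoef u a hu hdom ha0 haM e h heh heH x y hx hy hlt using
    fun n : ℕ => hcon n
  set η' : ℝ := min η 1 with hη'
  have hη'1 : η' ≤ 1 := min_le_right _ _
  have hu1 : ∀ t i, 1 ≤ u t i := fun t i => Nat.one_le_iff_ne_zero.2 (hu t i).1
  have hdom' : ∀ t i, i ≠ 0 → (u t i : ℝ) ≤ (u t 0 : ℝ) ^ (1 - η') := by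
    intro t i hi
    refine (hdom t i hi).trans ?_
    apply Real.rpow_le_rpow_of_exponent_le
    · exact_mod_cast hu1 t 0
    · have : η' ≤ η := min_le_left _ _
      linarith
  have hlogM : ∀ t, 0 ≤ Real.log (M t) := fun t => Real.log_nonneg (hM t)
  -- the sizes of the abscissas
  let X : ℕ → ℝ := fun t => |(x t : ℝ)|
  have hXlog : ∀ t : ℕ, 1 ≤ t → 1 < X t ∧ (t : ℝ) * (1 + Real.log (M t)) < Real.log (X t) := by
    intro t ht
    have h1 := hlt t
    have ht' : (1 : ℝ) ≤ t := by exact_mod_cast ht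
    have h2 : 0 < Real.log (max |(x t : ℝ)| 1) := by
      have := hlogM t
      nlinarith
    have h3 : 1 < max |(x t : ℝ)| 1 := by
      by_contra h4
      push Not at h4
      have h5 : max |(x t : ℝ)| 1 = 1 := le_antisymm h4 (le_max_right _ _)
      rw [h5, Real.log_one] at h2
      exact lt_irrefl _ h2
    have h4 : max |(x t : ℝ)| 1 = |(x t : ℝ)| := by
      rcases max_choice |(x t : ℝ)| 1 with h5 | h5
      · exact h5
      · rw [h5] at h3; exact absurd h3 (lt_irrefl _)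
    rw [h4] at h1 h3
    exact ⟨h3, h1⟩
  have hXt : Tendsto X atTop atTop := by
    refine tendsto_atTop_mono' _ ?_ tendsto_natCast_atTop_atTop
    filter_upwards [eventually_ge_atTop 1] with t ht
    obtain ⟨h1, h2⟩ := hXlog t ht
    have h3 : Real.log (X t) ≤ X t := Real.log_le_self (by linarith)
    have h4 : (t : ℝ) ≤ t * (1 + Real.log (M t)) := by
      have := hlogM t
      have ht' : (0 : ℝ) ≤ t := by positivity
      nlinarith
    linarith
  have hMX : ∀ ε : ℝ, 0 < ε → ∀ᶠ t in atTop, M t ≤ X t ^ ε := by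
    intro ε hε
    obtain ⟨n0, hn0⟩ := exists_nat_ge (1 / ε)
    filter_upwards [eventually_ge_atTop (max n0 1)] with t ht
    obtain ⟨h1, h2⟩ := hXlog t (le_trans (le_max_right _ _) ht)
    have ht' : 1 / ε ≤ t := hn0.trans (by exact_mod_cast le_trans (le_max_left _ _) ht)
    rw [div_le_iff₀ hε] at ht'
    have h3 : Real.log (M t) ≤ ε * Real.log (X t) := by
      have h4 := hlogM t
      have h5 : (t : ℝ) * Real.log (M t) ≤ Real.log (X t) := by
        have : (0 : ℝ) ≤ t := by positivity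
        nlinarith
      have h6 := mul_le_mul_of_nonneg_left h5 hε.le
      have h7 : Real.log (M t) ≤ ε * (t * Real.log (M t)) := by nlinarith
      linarith
    calc M t = Real.exp (Real.log (M t)) := (Real.exp_log (by linarith [hM t])).symm
      _ ≤ Real.exp (ε * Real.log (X t)) := Real.exp_le_exp.2 h3
      _ = X t ^ ε := by rw [Real.rpow_def_of_pos (by linarith)]; congr 1; ring
  obtain ⟨hL, hMS, -, hXlow, -⟩ := sizes hη'0 u a M X hM hu1 hdom' haM ha0
    (fun t => by
      simp only [X]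
      rw [hx t]
      push_cast
      rfl) hXt hMX
  set L : ℕ → ℝ := fun t => Real.log (u t 0) with hLdef
  -- the data for the theorem on roots
  let σ0 : ι := ⟨Fin.last d, fun _ => 0⟩
  let ρ : ℕ → ℕ := fun t => u t 0 ^ d
  let r : ℕ → ι → ℕ := fun t σ => if σ = σ0 then 1 else ∏ i, u t (σ.2 i)
  let lam : ℕ → ι → ℤ := fun t σ => if σ = σ0 then 0 else
    (f t).coeff (σ.1 : ℕ) * ∏ i, a t (σ.2 i)
  have hd0 : 0 < d := by omega
  have hr1 : ∀ t σ, (r t σ : ℝ) ≤ ρ t * Real.exp (-(η' * L t)) := by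
    intro t σ
    by_cases hσ : σ = σ0
    · have h1 := prod_le_dom (j := 0) (d := d) hη'1 (hu1 t) (hdom' t) hη'0.le (Nat.zero_le d)
        (fun i => i.elim0) (Or.inl hd0)
      simp only [r, if_pos hσ, ρ, hLdef]
      simpa using h1
    · simp only [r, if_neg hσ]
      refine prod_le_dom hη'1 (hu1 t) (hdom' t) hη'0.le (Nat.lt_succ_iff.1 σ.1.2) σ.2 ?_
      by_contra hno
      push Not at hno
      apply hσ
      obtain ⟨j, g⟩ := σ
      have hj : j = Fin.last d := by
        apply Fin.ext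
        have h1 := j.2
        have h2 := hno.1
        simp only [Fin.val_last]
        simp only at h2
        omega
      subst hj
      have hg : g = fun _ => 0 := funext hno.2
      rw [hg]
  have hcoefS : ∀ i, Sub L fun t => ((f t).coeff i : ℝ) := fun i =>
    hMS.mono (Eventually.of_forall fun t => by
      rw [abs_of_nonneg (by linarith [hM t] : (0 : ℝ) ≤ M t)]; exact hcoef t i)
  have haS : ∀ i, Sub L fun t => (a t i : ℝ) := fun i =>
    hMS.mono (Eventually.of_forall fun t => by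
      rw [abs_of_nonneg (by linarith [hM t] : (0 : ℝ) ≤ M t)]; exact haM t i)
  have hlamS : ∀ σ, Sub L fun t => (lam t σ : ℝ) := by
    intro σ
    by_cases hσ : σ = σ0
    · simp only [lam, if_pos hσ]
      exact_mod_cast Sub.const hL 0
    · simp only [lam, if_neg hσ]
      have h1 := (hcoefS (σ.1 : ℕ)).mul
        (Sub.prod hL Finset.univ fun i (_ : i ∈ (Finset.univ : Finset (Fin (σ.1 : ℕ)))) =>
          haS (σ.2 i))
      intro ε hε
      filter_upwards [h1 ε hε] with t ht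
      push_cast
      exact ht
  have hlc : ∀ t, (f t).leadingCoeff ≠ 0 := by
    intro t h0
    rw [Polynomial.leadingCoeff_eq_zero] at h0
    have h1 := hfd t
    rw [h0, Polynomial.natDegree_zero] at h1
    omega
  have hne : ∀ t, e t * h t ^ 2 ≠ 0 := fun t => by
    rw [← heh t]
    exact mul_ne_zero (hlc t) (pow_ne_zero _ (ha0 t))
  have he0 : ∀ t, e t ≠ 0 := fun t h0 => hne t (by rw [h0, zero_mul])
  have hh0 : ∀ t, h t ≠ 0 := fun t h0 => hne t (by rw [h0]; ring)
  have hhS : Sub L fun t => (((h t).natAbs : ℕ) : ℝ) := by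
    refine (hMS.pow hL (d + 1)).mono (Eventually.of_forall fun t => ?_)
    have h1 : |((h t).natAbs : ℝ)| = |(h t : ℝ)| := by
      rw [Nat.cast_natAbs]; push_cast; rw [abs_abs]
    have hM0 : 0 ≤ M t := by linarith [hM t]
    rw [h1, abs_of_nonneg (by positivity : (0 : ℝ) ≤ M t ^ (d + 1))]
    have h2 : (1 : ℝ) ≤ |(h t : ℝ)| := by
      have : 1 ≤ |h t| := Int.one_le_abs (hh0 t)
      exact_mod_cast this
    have h3 : (1 : ℝ) ≤ |(e t : ℝ)| := by
      have : 1 ≤ |e t| := Int.one_le_abs (he0 t)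
      exact_mod_cast this
    calc |(h t : ℝ)| ≤ |(e t : ℝ)| * |(h t : ℝ)| ^ 2 := by nlinarith [mul_le_mul h3 h2 (by norm_num) (abs_nonneg _)]
      _ = |((f t).coeff d : ℝ)| * |(a t 0 : ℝ)| ^ d := by
          have h4 : ((e t : ℝ)) * (h t : ℝ) ^ 2 = ((f t).coeff d : ℝ) * (a t 0 : ℝ) ^ d := by
            have h5 := heh t
            rw [Polynomial.leadingCoeff, hfd t] at h5
            exact_mod_cast h5.symm
          rw [← abs_pow, ← abs_mul, h4, abs_mul, abs_pow]
      _ ≤ M t * M t ^ d := mul_le_mul (hcoef t d) (pow_le_pow_left₀ (abs_nonneg _) (haM t 0) _)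
          (by positivity) hM0
      _ = M t ^ (d + 1) := by ring
  -- the value of the polynomial
  have hval : ∀ t, ((y t : ℝ)) ^ 2 = (e t : ℝ) * (h t : ℝ) ^ 2 * (ρ t : ℝ) +
      ∑ σ, (r t σ : ℝ) * lam t σ := by
    intro t
    have h1 := hy t
    rw [hx t, eval_expand (f t) (hfd t)] at h1
    let T : ι → ℤ := fun σ => ((f t).coeff (σ.1 : ℕ) * ∏ i, a t (σ.2 i)) *
      ∏ i, (u t (σ.2 i) : ℤ)
    have h2 : ∑ σ : ι, T σ = T σ0 + ∑ σ : ι, (r t σ : ℤ) * lam t σ := by
      have h3 : ∀ σ : ι, T σ = (if σ = σ0 then T σ else 0) + (r t σ : ℤ) * lam t σ := by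
        intro σ
        by_cases hσ : σ = σ0
        · simp only [r, lam, if_pos hσ]; ring
        · simp only [r, lam, if_neg hσ, T]; push_cast; ring
      conv_lhs => rw [Finset.sum_congr rfl fun σ _ => h3 σ]
      rw [Finset.sum_add_distrib, Finset.sum_ite_eq' Finset.univ σ0, if_pos (Finset.mem_univ _)]
    have h3 : T σ0 = e t * h t ^ 2 * (ρ t : ℤ) := by
      simp only [T, σ0, ρ]
      rw [← heh t, Polynomial.leadingCoeff, hfd t]
      simp
    have h4 : y t ^ 2 = e t * h t ^ 2 * (ρ t : ℤ) + ∑ σ : ι, (r t σ : ℤ) * lam t σ := by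
      rw [← h3, ← h2]; exact h1
    exact_mod_cast h4
  have hρ1 : ∀ t, (1 : ℝ) ≤ ρ t := fun t => by
    have : 1 ≤ ρ t := Nat.one_le_pow _ _ (hu1 t 0)
    exact_mod_cast this
  have hW := W_small hη'0 hL ρ r lam (Eventually.of_forall hr1) hlamS
  have hsub : ∀ ε : ℝ, 0 < ε → ∃ᶠ t in atTop, ∃ (E : ℤ) (w : Fin N → ℚˣ) (c : Fin N → ℤ),
        E ≠ 0 ∧ |(E : ℝ)| ≤ Real.exp (ε * L t) ∧ (∀ j, w j ∈ GamS S) ∧
        (∀ j, |(c j : ℝ)| ≤ Real.exp (ε * L t)) ∧
        (E : ℚ) * (y t).natAbs = ∑ j, ((w j : ℚˣ) : ℚ) * c j := by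
    refine hN L hL ρ r lam (fun t => (e t).natAbs) (fun t => (h t).natAbs)
      (fun t => (y t).natAbs) (fun t => smooth_pow (hu t 0) d) ?_ ?_ (Eventually.of_forall hr1)
      hlamS ?_ ?_ hhS ?_
    · intro t σ
      by_cases hσ : σ = σ0
      · simp only [r, if_pos hσ]; exact smooth_one S
      · simp only [r, if_neg hσ]; exact smooth_prod _ fun i _ => hu t _
    · refine Eventually.of_forall fun t => ?_
      have h1 : (0 : ℝ) < u t 0 := by
        have := hu1 t 0
        exact_mod_cast this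
      simp only [ρ, hLdef]
      push_cast
      rw [mul_comm, Real.exp_mul, Real.exp_log h1, Real.rpow_natCast]
    · intro t
      refine ⟨Int.natAbs_pos.2 (he0 t), ?_⟩
      have h1 := heH t
      rw [Int.abs_eq_natAbs] at h1
      exact_mod_cast h1
    · intro t
      exact Int.natAbs_pos.2 (hh0 t)
    · filter_upwards [hW] with t hWt
      have h1 := hval t
      have hρt := hρ1 t
      have hWt' := abs_le.1 hWt
      have h2 : (1 : ℝ) ≤ (h t : ℝ) ^ 2 := by
        have h3 : 1 ≤ h t ^ 2 := by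
          have := hh0 t
          have h4 : 0 < h t ^ 2 := by positivity
          omega
        exact_mod_cast h3
      have hepos : 0 < e t := by
        by_contra hneg
        have h3 : e t ≤ -1 := by
          have := he0 t
          omega
        have h4 : (e t : ℝ) ≤ -1 := by exact_mod_cast h3
        have h5 : (e t : ℝ) * (h t : ℝ) ^ 2 ≤ -1 := by nlinarith
        have h6 : (e t : ℝ) * (h t : ℝ) ^ 2 * (ρ t : ℝ) ≤ -1 * ρ t :=
          mul_le_mul_of_nonneg_right h5 (by linarith)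
        have h7 : (0 : ℝ) ≤ (y t : ℝ) ^ 2 := sq_nonneg _
        linarith
      have h3 : (1 : ℝ) ≤ e t := by exact_mod_cast hepos
      have h4 : (1 : ℝ) ≤ (e t : ℝ) * (h t : ℝ) ^ 2 := by nlinarith
      have h5 : (ρ t : ℝ) ≤ (e t : ℝ) * (h t : ℝ) ^ 2 * (ρ t : ℝ) := by nlinarith
      have h6 : 0 < (y t : ℝ) ^ 2 := by linarith
      have h7 : y t ≠ 0 := by
        intro h0
        rw [h0] at h6
        simp at h6
      have h8 : (((y t).natAbs : ℕ) : ℝ) = |(y t : ℝ)| := by
        rw [Nat.cast_natAbs]; push_cast; rfl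
      refine ⟨(((y t).natAbs : ℕ) : ℝ), ?_, ?_, ?_⟩
      · have := Int.natAbs_pos.2 h7
        exact_mod_cast this
      · rw [h8, sq_abs, h1]
        congr 1
        have h9 : (((e t).natAbs : ℕ) : ℝ) = e t := by
          rw [Nat.cast_natAbs]; push_cast; exact abs_of_pos (by linarith)
        have h10 : (((h t).natAbs : ℕ) : ℝ) = |(h t : ℝ)| := by
          rw [Nat.cast_natAbs]; push_cast; rfl
        rw [h9, h10, sq_abs]
      · rw [sub_self, abs_zero]
        positivity
  -- the end of the proof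
  set ε : ℝ := 1 / (24 * (|C0| + 1)) with hε
  have hC0' : 0 ≤ |C0| := abs_nonneg _
  have hεpos : 0 < ε := by rw [hε]; positivity
  have hε2 : 3 * |C0| * ε ≤ 1 / 8 := by
    rw [hε, mul_one_div, div_le_iff₀ (by positivity)]
    linarith
  obtain ⟨t, ⟨E, w, c, hE0, hEb, hw, hc, hEy⟩, hMt, hL8, hLpos, hXlt⟩ :=
    ((hsub ε hεpos).and_eventually ((hMS ε hεpos).and ((hL.eventually_ge_atTop (8 * |C0|)).and
      ((hL.eventually_gt_atTop 0).and hXlow)))).exists
  rw [abs_of_nonneg (by linarith [hM t] : (0 : ℝ) ≤ M t)] at hMt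
  have hexp1 : 1 ≤ Real.exp (ε * L t) := by
    rw [← Real.exp_zero]
    exact Real.exp_le_exp.2 (by positivity)
  have hexp3 : Real.exp (3 * ε * L t) = Real.exp (ε * L t) ^ 2 * Real.exp (ε * L t) := by
    rw [← pow_succ, ← Real.exp_nat_mul]; congr 1; push_cast; ring
  have hexp13 : Real.exp (ε * L t) ≤ Real.exp (3 * ε * L t) := by
    rw [hexp3]
    have h1 : 1 ≤ Real.exp (ε * L t) ^ 2 := one_le_pow₀ hexp1
    nlinarith
  have hune : ∀ i, ((u t i : ℕ) : ℚ) ≠ 0 := fun i => by exact_mod_cast (hu t i).1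
  have hfin := hC0 (Polynomial.C (E ^ 2) * f t)
    (by
      rw [Polynomial.natDegree_C_mul (pow_ne_zero _ hE0)]
      exact hfd t)
    (by
      rw [Polynomial.map_mul, Polynomial.map_C]
      refine Polynomial.Separable.of_dvd (hsep t) ?_
      have hE1 : (Int.castRingHom ℚ (E ^ 2)) ≠ 0 := by
        simp only [eq_intCast]
        exact_mod_cast pow_ne_zero 2 hE0
      refine ⟨Polynomial.C ((Int.castRingHom ℚ (E ^ 2))⁻¹), ?_⟩
      rw [mul_comm, ← mul_assoc, ← Polynomial.C_mul, inv_mul_cancel₀ hE1, Polynomial.C_1, one_mul])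
    (Real.exp (3 * ε * L t)) (hexp1.trans hexp13)
    (by
      intro i
      rw [Polynomial.coeff_C_mul]
      push_cast
      rw [abs_mul, abs_pow, hexp3]
      exact mul_le_mul (pow_le_pow_left₀ (abs_nonneg _) hEb 2) ((hcoef t i).trans hMt)
        (abs_nonneg _) (by positivity))
    (Fin.append (fun i => ⟨Units.mk0 _ (hune i), mem_gamS (hu t i) _ rfl⟩)
      (fun j => ⟨w j, hw j⟩))
    (Fin.append (a t) (fun _ => 0)) (Fin.append (fun _ => 0) c)
    (by
      intro j
      refine Fin.addCases (fun i => ?_) (fun i => ?_) j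
      · rw [Fin.append_left]
        exact ((haM t i).trans hMt).trans hexp13
      · rw [Fin.append_right]
        simp only [Int.cast_zero, abs_zero]
        positivity)
    (by
      intro j
      refine Fin.addCases (fun i => ?_) (fun i => ?_) j
      · rw [Fin.append_left]
        simp only [Int.cast_zero, abs_zero]
        positivity
      · rw [Fin.append_right]
        exact (hc i).trans hexp13)
    (x t : ℚ) ((E : ℚ) * (y t).natAbs)
    (by
      rw [Fin.sum_univ_add]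
      simp only [Fin.append_left, Fin.append_right, Int.cast_zero, mul_zero,
        Finset.sum_const_zero, add_zero, Units.val_mk0]
      rw [hx t]
      push_cast
      exact Finset.sum_congr rfl fun i _ => by ring)
    (by
      rw [Fin.sum_univ_add]
      simp only [Fin.append_left, Fin.append_right, Int.cast_zero, mul_zero,
        Finset.sum_const_zero, zero_add]
      exact hEy)
    (by
      rw [Polynomial.map_mul, Polynomial.map_C, Polynomial.eval_mul, Polynomial.eval_C, mul_pow]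
      have h1 : (((y t).natAbs : ℕ) : ℚ) ^ 2 = ((y t ^ 2 : ℤ) : ℚ) := by
        rw [Nat.cast_natAbs]; push_cast; exact sq_abs _
      rw [h1, hy t, Polynomial.eval_intCast_map]
      simp only [eq_intCast]
      push_cast
      rfl)
  rw [Rat.num_intCast, Rat.den_intCast, Real.log_exp] at hfin
  have h1 : Real.log (X t) ≤ Real.log (max |(x t : ℝ)| ((1 : ℕ) : ℝ)) := by
    apply Real.log_le_log
    · exact lt_of_lt_of_le (Real.exp_pos _) hXlt
    · exact le_max_left _ _
  have h2 : 1 / 2 * L t ≤ Real.log (X t) := by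
    have h3 := Real.log_le_log (Real.exp_pos _) hXlt
    rwa [Real.log_exp] at h3
  have h3 : C0 * (1 + 3 * ε * L t) ≤ |C0| * (1 + 3 * ε * L t) :=
    mul_le_mul_of_nonneg_right (le_abs_self _) (by positivity)
  have h4 : 3 * |C0| * ε * L t ≤ 1 / 8 * L t := mul_le_mul_of_nonneg_right hε2 hLpos.le
  nlinarith

end Pool.Agent.TH419.HX
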