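import Mathlib
import Pool.Agent.TH419.HX.Hyp
import Pool.Agent.TH551.HA.Fin

/-!
# The inequality of Hall for a sparse abscissa
-/

set_option autoImplicit false

open Finset Filter Topology

namespace Pool.Agent.TH419.HX

open Pool.Agent.TH419.WI

/-- the expansion of a power of a sum -/
lemma pow_expand {k p : ℕ} (a : Fin (k + 1) → ℤ) (u : Fin (k + 1) → ℕ) :
    (∑ i, a i * (u i : ℤ)) ^ p = ∑ g : Fin p → Fin (k + 1),
      (∏ i, a (g i)) * ∏ i, (u (g i) : ℤ) := by
  rw [Fintype.sum_pow (fun i => a i * (u i : ℤ)) p]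
  exact Finset.sum_congr rfl fun g _ => Finset.prod_mul_distrib

theorem hallX (p q k H : ℕ) (hp : 1 ≤ p) (hq : 1 ≤ q) (S : Finset ℕ) (hS : ∀ p ∈ S, p.Prime)
    (η ε : ℝ) (hη : 0 < η) (hε : 0 < ε) :
    ∃ K : ℝ, 0 < K ∧ ∀ M : ℝ, 1 ≤ M → ∀ (u : Fin (k + 1) → ℕ) (a : Fin (k + 1) → ℤ),
      (∀ i, Smooth S (u i)) → (∀ i, i ≠ 0 → (u i : ℝ) ≤ (u 0 : ℝ) ^ (1 - η)) → a 0 ≠ 0 →
      (∀ i, |(a i : ℝ)| ≤ M) → ∀ e h : ℤ, a 0 ^ p = e * h ^ q → |e| ≤ H →
      ∀ x y : ℤ, x = ∑ i, a i * (u i : ℤ) → y ^ q ≠ x ^ p →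
      (max (|(x : ℝ)| ^ p) (|(y : ℝ)| ^ q)) ^ (1 - 1 / (p : ℝ) - 1 / (q : ℝ) - ε) ≤
        (K * M) ^ K * |(y : ℝ) ^ q - (x : ℝ) ^ p| := by
  classical
  have hη'0 : 0 < min η 1 := lt_min hη one_pos
  obtain ⟨N, hN⟩ := nearRoot (ι := Fin p → Fin (k + 1)) S hS q H hq (p : ℝ) (min η 1) (1 / 2)
    (by positivity) hη'0 (by norm_num)
  obtain ⟨K0, hK00, hK0⟩ := Pool.Agent.TH551.HA.hallPow p q (k + 1 + N) hp hq (GamS S)
    (gamS_fg S) (ε / 2) (by positivity)
  by_contra hcon
  push Not at hcon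
  choose M hM u a hu hdom ha0 haM e h heh heH x y hx hne hlt using
    fun n : ℕ => hcon ((n : ℝ) + 1) (by positivity)
  set θ : ℝ := 1 - 1 / (p : ℝ) - 1 / (q : ℝ) - ε with hθ
  set η' : ℝ := min η 1 with hη'
  have hη'1 : η' ≤ 1 := min_le_right _ _
  have hpR : (1 : ℝ) ≤ p := by exact_mod_cast hp
  have hqR : (1 : ℝ) ≤ q := by exact_mod_cast hq
  have hu1 : ∀ t i, 1 ≤ u t i := fun t i => Nat.one_le_iff_ne_zero.2 (hu t i).1
  have hdom' : ∀ t i, i ≠ 0 → (u t i : ℝ) ≤ (u t 0 : ℝ) ^ (1 - η') := by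
    intro t i hi
    refine (hdom t i hi).trans ?_
    apply Real.rpow_le_rpow_of_exponent_le
    · exact_mod_cast hu1 t 0
    · have : η' ≤ η := min_le_left _ _
      linarith
  -- basic facts on the counterexamples
  let X : ℕ → ℝ := fun t => |(x t : ℝ)|
  let Y : ℕ → ℝ := fun t => |(y t : ℝ)|
  let Mx : ℕ → ℝ := fun t => max (X t ^ p) (Y t ^ q)
  let Δ : ℕ → ℝ := fun t => |(y t : ℝ) ^ q - (x t : ℝ) ^ p|
  have hΔ1 : ∀ t, 1 ≤ Δ t := by
    intro t
    have h1 : y t ^ q - x t ^ p ≠ 0 := sub_ne_zero.2 (hne t)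
    have h2 := Int.one_le_abs h1
    simp only [Δ]
    exact_mod_cast h2
  have hX0 : ∀ t, 0 ≤ X t := fun t => abs_nonneg _
  have hY0 : ∀ t, 0 ≤ Y t := fun t => abs_nonneg _
  have hΔ : ∀ t, |Y t ^ q - X t ^ p| ≤ Δ t := by
    intro t
    simp only [X, Y, Δ]
    rw [← abs_pow, ← abs_pow]
    exact abs_abs_sub_abs_le_abs_sub _ _
  have hMx1 : ∀ t, 1 ≤ Mx t := by
    intro t
    by_contra hlt1
    push Not at hlt1
    have h1 : X t ^ p < 1 := lt_of_le_of_lt (le_max_left _ _) hlt1
    have h2 : Y t ^ q < 1 := lt_of_le_of_lt (le_max_right _ _) hlt1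
    have h3 : x t = 0 := by
      by_contra h0
      have h4 : (1 : ℝ) ≤ X t := by
        have : 1 ≤ |x t| := Int.one_le_abs h0
        simp only [X]
        exact_mod_cast this
      have := one_le_pow₀ h4 (n := p)
      linarith
    have h4 : y t = 0 := by
      by_contra h0
      have h5 : (1 : ℝ) ≤ Y t := by
        have : 1 ≤ |y t| := Int.one_le_abs h0
        simp only [Y]
        exact_mod_cast this
      have := one_le_pow₀ h5 (n := q)
      linarith
    apply hne t
    rw [h3, h4, zero_pow (by omega), zero_pow (by omega)]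
  have hlt' : ∀ t : ℕ, (((t : ℝ) + 1) * M t) ^ ((t : ℝ) + 1) * Δ t < Mx t ^ θ := fun t => hlt t
  have hbase : ∀ t : ℕ, 1 ≤ ((t : ℝ) + 1) * M t := fun t => by
    have h1 : (1 : ℝ) ≤ (t : ℝ) + 1 := by have : (0 : ℝ) ≤ t := by positivity
                                          linarith
    exact one_le_mul_of_one_le_of_one_le h1 (hM t)
  have hθ0 : 0 < θ := by
    by_contra hneg
    push Not at hneg
    have h1 := hlt' 0
    have h2 : Mx 0 ^ θ ≤ 1 := Real.rpow_le_one_of_one_le_of_nonpos (hMx1 0) hneg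
    have h3 : 1 ≤ (((0 : ℕ) : ℝ) + 1) * M 0 := hbase 0
    have h4 : 1 ≤ ((((0 : ℕ) : ℝ) + 1) * M 0) ^ (((0 : ℕ) : ℝ) + 1) :=
      Real.one_le_rpow h3 (by positivity)
    have h5 := hΔ1 0
    nlinarith
  have hθ1 : θ < 1 := by
    have h1 : 0 < 1 / (p : ℝ) := by positivity
    have h2 : 0 < 1 / (q : ℝ) := by positivity
    rw [hθ]; linarith
  have hMxθ : ∀ t, Mx t ^ θ ≤ Mx t := fun t => by
    calc Mx t ^ θ ≤ Mx t ^ (1 : ℝ) := Real.rpow_le_rpow_of_exponent_le (hMx1 t) hθ1.le
      _ = Mx t := Real.rpow_one _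
  have hpowbase : ∀ t : ℕ, ((t : ℝ) + 1) * M t ≤ (((t : ℝ) + 1) * M t) ^ ((t : ℝ) + 1) := by
    intro t
    calc ((t : ℝ) + 1) * M t = (((t : ℝ) + 1) * M t) ^ (1 : ℝ) := (Real.rpow_one _).symm
      _ ≤ _ := Real.rpow_le_rpow_of_exponent_le (hbase t) (by have : (0 : ℝ) ≤ t := by positivity
                                                              linarith)
  have hΔMx : ∀ t : ℕ, 1 ≤ t → Δ t ≤ Mx t / 2 := by
    intro t ht
    have h1 := hlt' t
    have h2 := hpowbase t
    have h3 : (2 : ℝ) ≤ ((t : ℝ) + 1) * M t := by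
      have h4 : (1 : ℝ) ≤ t := by exact_mod_cast ht
      nlinarith [hM t]
    have h4 := hΔ1 t
    have h5 := hMxθ t
    nlinarith
  have hXMx : ∀ t : ℕ, 1 ≤ t → Mx t / 2 ≤ X t ^ p := by
    intro t ht
    have h1 := hΔMx t ht
    have h2 := abs_le.1 (hΔ t)
    rcases max_choice (X t ^ p) (Y t ^ q) with h3 | h3
    · have h4 : Mx t = X t ^ p := h3
      have := hMx1 t
      linarith
    · have h4 : Mx t = Y t ^ q := h3
      linarith [h2.2]
  have hXt1 : ∀ t : ℕ, 1 ≤ t → ((t : ℝ) + 1) / 2 ≤ X t ^ p := by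
    intro t ht
    refine le_trans ?_ (hXMx t ht)
    have h1 := hlt' t
    have h2 := hpowbase t
    have h3 := hΔ1 t
    have h4 := hMxθ t
    have h5 : (t : ℝ) + 1 ≤ ((t : ℝ) + 1) * M t := by
      have : (0 : ℝ) ≤ t := by positivity
      nlinarith [hM t]
    have h6 : 0 < (((t : ℝ) + 1) * M t) ^ ((t : ℝ) + 1) := by
      have := hbase t
      positivity
    nlinarith
  have hXt : Tendsto X atTop atTop := by
    rw [tendsto_atTop]
    intro R
    obtain ⟨n0, hn0⟩ := exists_nat_ge (2 * max R 1 ^ p)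
    filter_upwards [eventually_ge_atTop (max n0 1)] with t ht
    by_contra hlt2
    push Not at hlt2
    have h1 := hXt1 t (le_trans (le_max_right _ _) ht)
    have h2 : X t ^ p ≤ max R 1 ^ p :=
      pow_le_pow_left₀ (hX0 t) (hlt2.le.trans (le_max_left _ _)) _
    have h3 : (n0 : ℝ) ≤ t := by exact_mod_cast le_trans (le_max_left _ _) ht
    linarith
  have hMX : ∀ ε : ℝ, 0 < ε → ∀ᶠ t in atTop, M t ≤ X t ^ ε := by
    intro δ hδ
    obtain ⟨n0, hn0⟩ := exists_nat_ge (((p : ℝ) + 1) / δ)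
    filter_upwards [eventually_ge_atTop (max n0 1), hXt.eventually_ge_atTop 2] with t ht hX2
    have ht' : ((p : ℝ) + 1) / δ ≤ t := hn0.trans (by exact_mod_cast le_trans (le_max_left _ _) ht)
    rw [div_le_iff₀ hδ] at ht'
    have hXpos : 0 < X t := by linarith
    have hMpos : 0 < M t := by linarith [hM t]
    have h1 : M t ^ ((t : ℝ) + 1) ≤ 2 * X t ^ p := by
      have h2 : M t ^ ((t : ℝ) + 1) ≤ (((t : ℝ) + 1) * M t) ^ ((t : ℝ) + 1) := by
        apply Real.rpow_le_rpow hMpos.le _ (by positivity)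
        have : (0 : ℝ) ≤ t := by positivity
        nlinarith [hM t]
      have h3 := hlt' t
      have h4 := hΔ1 t
      have h5 := hMxθ t
      have h6 := hXMx t (le_trans (le_max_right _ _) ht)
      have h7 : 0 < (((t : ℝ) + 1) * M t) ^ ((t : ℝ) + 1) := by
        have := hbase t
        positivity
      nlinarith
    have h2 : 2 * X t ^ p ≤ X t ^ (p + 1) := by
      rw [pow_succ]
      have : 0 < X t ^ p := by positivity
      nlinarith
    have h3 := Real.log_le_log (by positivity) (h1.trans h2)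
    rw [Real.log_rpow hMpos, Real.log_pow] at h3
    push_cast at h3
    have h4 : 0 ≤ Real.log (M t) := Real.log_nonneg (hM t)
    have h5 : 0 ≤ Real.log (X t) := Real.log_nonneg (by linarith)
    have h6 : Real.log (M t) ≤ δ * Real.log (X t) := by
      by_contra h7
      push Not at h7
      have h8 : ((p : ℝ) + 1) * Real.log (X t) < ((t : ℝ) + 1) * Real.log (M t) := by
        have ht0 : (0 : ℝ) ≤ t := by positivity
        have h9 : ((t : ℝ) + 1) * (δ * Real.log (X t)) < ((t : ℝ) + 1) * Real.log (M t) :=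
          mul_lt_mul_of_pos_left h7 (by positivity)
        nlinarith
      linarith
    calc M t = Real.exp (Real.log (M t)) := (Real.exp_log hMpos).symm
      _ ≤ Real.exp (δ * Real.log (X t)) := Real.exp_le_exp.2 h6
      _ = X t ^ δ := by rw [Real.rpow_def_of_pos hXpos]; congr 1; ring
  obtain ⟨hL, hMS, -, hXlow, hXlow2⟩ := sizes hη'0 u a M X hM hu1 hdom' haM ha0
    (fun t => by
      simp only [X]
      rw [hx t]
      push_cast
      rfl) hXt hMX
  set L : ℕ → ℝ := fun t => Real.log (u t 0) with hLdef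
  -- the data for the theorem on roots
  let s : ℕ → ℤ := fun t => Int.sign (x t)
  have hsx : ∀ t, s t * x t = |x t| := fun t => Int.sign_mul_self_eq_abs _
  let ρ : ℕ → ℕ := fun t => u t 0 ^ p
  let r : ℕ → (Fin p → Fin (k + 1)) → ℕ := fun t g => if g = 0 then 1 else ∏ i, u t (g i)
  let lam : ℕ → (Fin p → Fin (k + 1)) → ℤ := fun t g => if g = 0 then 0 else
    ∏ i, (s t * a t (g i))
  have hp0 : 0 < p := by omega
  have hr1 : ∀ t g, (r t g : ℝ) ≤ ρ t * Real.exp (-(η' * L t)) := by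
    intro t g
    by_cases hg : g = 0
    · have h1 := prod_le_dom (j := 0) (d := p) hη'1 (hu1 t) (hdom' t) hη'0.le (Nat.zero_le p)
        (fun i => i.elim0) (Or.inl hp0)
      simp only [r, if_pos hg, ρ, hLdef]
      simpa using h1
    · simp only [r, if_neg hg]
      refine prod_le_dom hη'1 (hu1 t) (hdom' t) hη'0.le le_rfl g (Or.inr ?_)
      by_contra hno
      push Not at hno
      exact hg (funext hno)
  have haS : ∀ i, Sub L fun t => ((s t * a t i : ℤ) : ℝ) := fun i =>
    hMS.mono (Eventually.of_forall fun t => by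
      rw [abs_of_nonneg (by linarith [hM t] : (0 : ℝ) ≤ M t)]
      push_cast
      rw [abs_mul]
      have h1 : |((s t : ℤ) : ℝ)| ≤ 1 := by
        have h2 : |s t| ≤ 1 := by
          simp only [s]
          rcases Int.sign_trichotomy (x t) with h3 | h3 | h3 <;> rw [h3] <;> simp
        exact_mod_cast h2
      have h2 := haM t i
      have h3 : 0 ≤ |(a t i : ℝ)| := abs_nonneg _
      nlinarith)
  have hlamS : ∀ g, Sub L fun t => (lam t g : ℝ) := by
    intro g
    by_cases hg : g = 0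
    · simp only [lam, if_pos hg]
      exact_mod_cast Sub.const hL 0
    · simp only [lam, if_neg hg]
      have h1 := Sub.prod hL Finset.univ fun i (_ : i ∈ (Finset.univ : Finset (Fin p))) =>
          haS (g i)
      intro δ hδ
      filter_upwards [h1 δ hδ] with t ht
      push_cast at ht ⊢
      exact ht
  have he0 : ∀ t, e t ≠ 0 := fun t h0 => by
    have h1 := heh t
    rw [h0, zero_mul] at h1
    exact pow_ne_zero p (ha0 t) h1
  have hh0 : ∀ t, h t ≠ 0 := fun t h0 => by
    have h1 := heh t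
    rw [h0, zero_pow (by omega), mul_zero] at h1
    exact pow_ne_zero p (ha0 t) h1
  have hehR : ∀ t, |(a t 0 : ℝ)| ^ p = |(e t : ℝ)| * |(h t : ℝ)| ^ q := by
    intro t
    rw [← abs_pow, ← abs_pow, ← abs_mul]
    congr 1
    exact_mod_cast heh t
  have hhS : Sub L fun t => (((h t).natAbs : ℕ) : ℝ) := by
    refine (hMS.pow hL p).mono (Eventually.of_forall fun t => ?_)
    have h1 : |((h t).natAbs : ℝ)| = |(h t : ℝ)| := by
      rw [Nat.cast_natAbs]; push_cast; rw [abs_abs]
    have hM0 : 0 ≤ M t := by linarith [hM t]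
    rw [h1, abs_of_nonneg (by positivity : (0 : ℝ) ≤ M t ^ p)]
    have h2 : (1 : ℝ) ≤ |(h t : ℝ)| := by
      have : 1 ≤ |h t| := Int.one_le_abs (hh0 t)
      exact_mod_cast this
    have h3 : (1 : ℝ) ≤ |(e t : ℝ)| := by
      have : 1 ≤ |e t| := Int.one_le_abs (he0 t)
      exact_mod_cast this
    calc |(h t : ℝ)| ≤ |(h t : ℝ)| ^ q := le_self_pow₀ h2 (by omega)
      _ ≤ |(e t : ℝ)| * |(h t : ℝ)| ^ q := by
          have : 0 ≤ |(h t : ℝ)| ^ q := by positivity
          nlinarith
      _ = |(a t 0 : ℝ)| ^ p := (hehR t).symm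
      _ ≤ M t ^ p := pow_le_pow_left₀ (abs_nonneg _) (haM t 0) _
  -- the value of the power
  have hval : ∀ t, X t ^ p = ((s t * a t 0 : ℤ) : ℝ) ^ p * (ρ t : ℝ) +
      ∑ g, (r t g : ℝ) * lam t g := by
    intro t
    have h0 : |x t| = ∑ i, (s t * a t i) * (u t i : ℤ) := by
      have h00 : s t * x t = s t * ∑ i, a t i * (u t i : ℤ) := congrArg (fun z => s t * z) (hx t)
      rw [← hsx t, h00, Finset.mul_sum]
      exact Finset.sum_congr rfl fun i _ => by ring
    have h1 : |x t| ^ p = ∑ g : Fin p → Fin (k + 1),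
        (∏ i, (s t * a t (g i))) * ∏ i, (u t (g i) : ℤ) := by
      rw [h0, pow_expand (fun i => s t * a t i) (u t)]
    let T : (Fin p → Fin (k + 1)) → ℤ := fun g => (∏ i, (s t * a t (g i))) *
      ∏ i, (u t (g i) : ℤ)
    have h2 : ∑ g, T g = T 0 + ∑ g, (r t g : ℤ) * lam t g := by
      have h3 : ∀ g, T g = (if g = 0 then T g else 0) + (r t g : ℤ) * lam t g := by
        intro g
        by_cases hg : g = 0
        · simp only [r, lam, if_pos hg]; ring
        · simp only [r, lam, if_neg hg, T]; push_cast; ring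
      conv_lhs => rw [Finset.sum_congr rfl fun σ _ => h3 σ]
      rw [Finset.sum_add_distrib, Finset.sum_ite_eq' Finset.univ 0, if_pos (Finset.mem_univ _)]
    have h3 : T 0 = (s t * a t 0) ^ p * (ρ t : ℤ) := by
      simp only [T, ρ]
      simp
    have h4 : |x t| ^ p = (s t * a t 0) ^ p * (ρ t : ℤ) + ∑ g, (r t g : ℤ) * lam t g := by
      rw [← h3, ← h2]; exact h1
    simp only [X]
    exact_mod_cast h4
  have hρ1 : ∀ t, (1 : ℝ) ≤ ρ t := fun t => by
    have : 1 ≤ ρ t := Nat.one_le_pow _ _ (hu1 t 0)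
    exact_mod_cast this
  have hW := W_small hη'0 hL ρ r lam (Eventually.of_forall hr1) hlamS
  have hsub : ∀ ε : ℝ, 0 < ε → ∃ᶠ t in atTop, ∃ (E : ℤ) (w : Fin N → ℚˣ) (c : Fin N → ℤ),
        E ≠ 0 ∧ |(E : ℝ)| ≤ Real.exp (ε * L t) ∧ (∀ j, w j ∈ GamS S) ∧
        (∀ j, |(c j : ℝ)| ≤ Real.exp (ε * L t)) ∧
        (E : ℚ) * (y t).natAbs = ∑ j, ((w j : ℚˣ) : ℚ) * c j := by
    refine hN L hL ρ r lam (fun t => (e t).natAbs) (fun t => (h t).natAbs)
      (fun t => (y t).natAbs) (fun t => smooth_pow (hu t 0) p) ?_ ?_ (Eventually.of_forall hr1)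
      hlamS ?_ ?_ hhS ?_
    · intro t g
      by_cases hg : g = 0
      · simp only [r, if_pos hg]; exact smooth_one S
      · simp only [r, if_neg hg]; exact smooth_prod _ fun i _ => hu t _
    · refine Eventually.of_forall fun t => ?_
      have h1 : (0 : ℝ) < u t 0 := by
        have := hu1 t 0
        exact_mod_cast this
      simp only [ρ, hLdef]
      push_cast
      rw [mul_comm, Real.exp_mul, Real.exp_log h1, Real.rpow_natCast]
    · intro t
      refine ⟨Int.natAbs_pos.2 (he0 t), ?_⟩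
      have h1 := heH t
      rw [Int.abs_eq_natAbs] at h1
      exact_mod_cast h1
    · intro t
      exact Int.natAbs_pos.2 (hh0 t)
    · filter_upwards [hW, hXt.eventually_ge_atTop 1, hXlow2,
        ev_const_le hL 4 (1 / 2) (by norm_num), eventually_ge_atTop 1] with
        t hWt hX1 hXu h4e ht1
      have h1 := hval t
      have hρt := hρ1 t
      have hWt' := abs_le.1 hWt
      have hXpos : 0 < X t := by linarith
      have h8 : (((y t).natAbs : ℕ) : ℝ) = Y t := by
        rw [Nat.cast_natAbs]; push_cast; rfl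
      -- the leading coefficient
      have hlead : ((s t * a t 0 : ℤ) : ℝ) ^ p =
          (((e t).natAbs : ℕ) : ℝ) * (((h t).natAbs : ℕ) : ℝ) ^ q := by
        have h9 : (((e t).natAbs : ℕ) : ℝ) = |(e t : ℝ)| := by
          rw [Nat.cast_natAbs]; push_cast; rfl
        have h10 : (((h t).natAbs : ℕ) : ℝ) = |(h t : ℝ)| := by
          rw [Nat.cast_natAbs]; push_cast; rfl
        rw [h9, h10, ← hehR t]
        have hpos : 0 ≤ ((s t * a t 0 : ℤ) : ℝ) ^ p := by
          by_contra hneg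
          push Not at hneg
          have h11 : (s t * a t 0) ^ p ≤ -1 := by
            have h12 : (s t * a t 0) ^ p < 0 := by exact_mod_cast hneg
            omega
          have h12 : ((s t * a t 0 : ℤ) : ℝ) ^ p ≤ -1 := by exact_mod_cast h11
          have h13 : ((s t * a t 0 : ℤ) : ℝ) ^ p * (ρ t : ℝ) ≤ -1 * ρ t :=
            mul_le_mul_of_nonneg_right h12 (by linarith)
          have h14 : 0 ≤ X t ^ p := by positivity
          linarith
        rw [← abs_of_nonneg hpos, abs_pow]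
        congr 1
        push_cast
        rw [abs_mul]
        have h11 : |((s t : ℤ) : ℝ)| = 1 := by
          have h12 : x t ≠ 0 := by
            intro h0
            have : X t = 0 := by simp only [X]; rw [h0]; simp
            linarith
          have h13 : |s t| = 1 := by
            simp only [s]
            rcases lt_or_gt_of_ne h12 with h14 | h14
            · rw [Int.sign_eq_neg_one_of_neg h14]; rfl
            · rw [Int.sign_eq_one_of_pos h14]; rfl
          exact_mod_cast h13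
        rw [h11, one_mul]
      refine ⟨X t ^ ((p : ℝ) / q), Real.one_le_rpow hX1 (by positivity), ?_, ?_⟩
      · rw [← Real.rpow_natCast (X t ^ ((p : ℝ) / q)), ← Real.rpow_mul (hX0 t),
          div_mul_cancel₀ _ (by positivity : (q : ℝ) ≠ 0), Real.rpow_natCast, h1, hlead]
      · have hGq : (X t ^ ((p : ℝ) / q)) ^ q = X t ^ p := by
          rw [← Real.rpow_natCast (X t ^ ((p : ℝ) / q)), ← Real.rpow_mul (hX0 t),
            div_mul_cancel₀ _ (by positivity : (q : ℝ) ≠ 0), Real.rpow_natCast]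
        rw [hGq, h8]
        refine (hΔ t).trans ?_
        have h2 : Δ t ≤ Mx t ^ θ := by
          have h3 := hlt' t
          have h4 := hpowbase t
          have h5 := hbase t
          have h6 := hΔ1 t
          nlinarith
        have h3 : Mx t ≤ 2 * X t ^ p := by
          have := hXMx t ht1
          linarith
        have h4 : Mx t ^ θ ≤ 2 * X t ^ ((p : ℝ) * θ) := by
          calc Mx t ^ θ ≤ (2 * X t ^ p) ^ θ :=
                Real.rpow_le_rpow (by linarith [hMx1 t]) h3 hθ0.le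
            _ = 2 ^ θ * (X t ^ p) ^ θ := Real.mul_rpow (by norm_num) (by positivity)
            _ ≤ 2 ^ (1 : ℝ) * (X t ^ p) ^ θ := by
                apply mul_le_mul_of_nonneg_right _ (by positivity)
                exact Real.rpow_le_rpow_of_exponent_le (by norm_num) hθ1.le
            _ = 2 * X t ^ ((p : ℝ) * θ) := by
                rw [Real.rpow_one, ← Real.rpow_natCast (X t) p, ← Real.rpow_mul (hX0 t)]
        have h5 : X t ^ ((p : ℝ) * θ) ≤ (X t ^ ((p : ℝ) / q)) ^ (q - 1) * (X t)⁻¹ := by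
          have h6 : (X t ^ ((p : ℝ) / q)) ^ (q - 1) * (X t)⁻¹ =
              X t ^ ((p : ℝ) / q * ((q : ℝ) - 1) + -1) := by
            rw [← Real.rpow_natCast (X t ^ ((p : ℝ) / q)), ← Real.rpow_mul (hX0 t),
              Real.rpow_add hXpos, Real.rpow_neg_one, Nat.cast_sub hq]
            push_cast
            rfl
          rw [h6]
          apply Real.rpow_le_rpow_of_exponent_le hX1
          have h7 : (p : ℝ) * θ = (p : ℝ) / q * ((q : ℝ) - 1) + -1 - p * ε := by
            rw [hθ]; field_simp; ring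
          rw [h7]
          have : 0 < (p : ℝ) * ε := by positivity
          linarith
        have h6 : (X t)⁻¹ ≤ 2 * Real.exp (-(L t)) := by
          have h7 : Real.exp (L t) = u t 0 := by
            simp only [hLdef]
            apply Real.exp_log
            have := hu1 t 0
            exact_mod_cast this
          rw [Real.exp_neg, h7, ← div_eq_mul_inv, ← inv_div]
          apply inv_anti₀ _ hXu
          have : (0 : ℝ) < u t 0 := by
            have := hu1 t 0
            exact_mod_cast this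
          linarith
        have h7 : 4 * Real.exp (-(L t)) ≤ Real.exp (-(1 / 2 * L t)) := by
          calc 4 * Real.exp (-(L t)) ≤ Real.exp (1 / 2 * L t) * Real.exp (-(L t)) :=
                mul_le_mul_of_nonneg_right h4e (Real.exp_pos _).le
            _ = Real.exp (-(1 / 2 * L t)) := by rw [← Real.exp_add]; congr 1; ring
        have hGpos : 0 ≤ (X t ^ ((p : ℝ) / q)) ^ (q - 1) := by positivity
        calc Δ t ≤ Mx t ^ θ := h2
          _ ≤ 2 * X t ^ ((p : ℝ) * θ) := h4
          _ ≤ 2 * ((X t ^ ((p : ℝ) / q)) ^ (q - 1) * (X t)⁻¹) := by linarith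
          _ ≤ 2 * ((X t ^ ((p : ℝ) / q)) ^ (q - 1) * (2 * Real.exp (-(L t)))) := by
              have := mul_le_mul_of_nonneg_left h6 hGpos
              linarith
          _ = (X t ^ ((p : ℝ) / q)) ^ (q - 1) * (4 * Real.exp (-(L t))) := by ring
          _ ≤ (X t ^ ((p : ℝ) / q)) ^ (q - 1) * Real.exp (-(1 / 2 * L t)) :=
              mul_le_mul_of_nonneg_left h7 hGpos
  -- the end of the proof
  obtain ⟨A, hA⟩ : ∃ A : ℝ, A = K0 * (p + q + 1) + p * q + 1 := ⟨_, rfl⟩
  have hA1 : 1 ≤ A := by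
    have h1 : 0 < K0 * ((p : ℝ) + q + 1) := by positivity
    have h2 : 0 < (p : ℝ) * q := by positivity
    rw [hA]; linarith
  obtain ⟨δ, hδ⟩ : ∃ δ : ℝ, δ = ε / (16 * A) := ⟨_, rfl⟩
  have hδpos : 0 < δ := by rw [hδ]; positivity
  have hδA : A * δ = ε / 16 := by rw [hδ]; field_simp
  obtain ⟨t, ⟨E, w, c, hE0, hEb, hw, hc, hEy⟩, hMt, hLpos, hXlt, hK0t, ht1, hX1⟩ :=
    ((hsub δ hδpos).and_eventually ((hMS δ hδpos).and ((hL.eventually_gt_atTop 0).and
      (hXlow.and ((ev_const_le hL (2 * K0 ^ K0) (ε / 16) (by positivity)).and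
        ((eventually_ge_atTop 1).and (hXt.eventually_ge_atTop 1))))))).exists
  rw [abs_of_nonneg (by linarith [hM t] : (0 : ℝ) ≤ M t)] at hMt
  have hexp1 : 1 ≤ Real.exp (δ * L t) := by
    rw [← Real.exp_zero]
    exact Real.exp_le_exp.2 (by positivity)
  have hexpn : ∀ n : ℕ, Real.exp (δ * L t) ^ n = Real.exp (n * δ * L t) := fun n => by
    rw [← Real.exp_nat_mul]; congr 1; ring
  have hexpm : ∀ m n : ℕ, m ≤ n → Real.exp (δ * L t) ^ m ≤ Real.exp (δ * L t) ^ n :=
    fun m n hmn => pow_le_pow_right₀ hexp1 hmn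
  have hE1 : (1 : ℝ) ≤ |(E : ℝ)| := by
    have : 1 ≤ |E| := Int.one_le_abs hE0
    exact_mod_cast this
  have hs1 : |((s t : ℤ) : ℝ)| ≤ 1 := by
    have h2 : |s t| ≤ 1 := by
      simp only [s]
      rcases Int.sign_trichotomy (x t) with h3 | h3 | h3 <;> rw [h3] <;> simp
    exact_mod_cast h2
  have hune : ∀ i, ((u t i : ℕ) : ℚ) ≠ 0 := fun i => by exact_mod_cast (hu t i).1
  have hne2 : ((y t).natAbs : ℤ) ^ q ≠ |x t| ^ p := by
    intro heq
    rw [Int.natCast_natAbs, ← abs_pow, ← abs_pow, abs_eq_abs] at heq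
    rcases heq with h1 | h1
    · exact hne t h1
    · have h2 : Δ t = 2 * X t ^ p := by
        simp only [Δ, X]
        have h3 : (y t : ℝ) ^ q = -((x t : ℝ) ^ p) := by exact_mod_cast h1
        rw [h3, ← abs_pow]
        have h4 : -((x t : ℝ) ^ p) - (x t : ℝ) ^ p = -(2 * (x t : ℝ) ^ p) := by ring
        rw [h4, abs_neg, abs_mul]
        norm_num
      have h3 := hΔMx t ht1
      have h4 := hXMx t ht1
      have h5 := hΔ1 t
      have h6 := hMx1 t
      linarith
  have hfin := hK0 (Real.exp (δ * L t) ^ (p + q + 1)) (one_le_pow₀ hexp1)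
    (Fin.append (fun i => ⟨Units.mk0 _ (hune i), mem_gamS (hu t i) _ rfl⟩)
      (fun j => ⟨w j, hw j⟩))
    (Fin.append (fun i => E ^ q * (s t * a t i)) (fun _ => 0))
    (Fin.append (fun _ => 0) (fun j => E ^ (p - 1) * c j))
    (by
      intro j
      refine Fin.addCases (fun i => ?_) (fun i => ?_) j
      · rw [Fin.append_left]
        push_cast
        rw [abs_mul, abs_pow, abs_mul]
        calc |(E : ℝ)| ^ q * (|((s t : ℤ) : ℝ)| * |(a t i : ℝ)|)
            ≤ Real.exp (δ * L t) ^ q * (1 * Real.exp (δ * L t)) :=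
              mul_le_mul (pow_le_pow_left₀ (abs_nonneg _) hEb q)
                (mul_le_mul hs1 ((haM t i).trans hMt) (abs_nonneg _) zero_le_one)
                (by positivity) (by positivity)
          _ = Real.exp (δ * L t) ^ (q + 1) := by rw [one_mul, ← pow_succ]
          _ ≤ _ := hexpm _ _ (by omega)
      · rw [Fin.append_right]
        simp only [Int.cast_zero, abs_zero]
        positivity)
    (by
      intro j
      refine Fin.addCases (fun i => ?_) (fun i => ?_) j
      · rw [Fin.append_left]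
        simp only [Int.cast_zero, abs_zero]
        positivity
      · rw [Fin.append_right]
        push_cast
        rw [abs_mul, abs_pow]
        calc |(E : ℝ)| ^ (p - 1) * |(c i : ℝ)|
            ≤ Real.exp (δ * L t) ^ (p - 1) * Real.exp (δ * L t) :=
              mul_le_mul (pow_le_pow_left₀ (abs_nonneg _) hEb _) (hc i) (abs_nonneg _)
                (by positivity)
          _ = Real.exp (δ * L t) ^ (p - 1 + 1) := by rw [← pow_succ]
          _ ≤ _ := hexpm _ _ (by omega))
    (E ^ q * |x t|) (E ^ p * (y t).natAbs)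
    (by
      rw [Fin.sum_univ_add]
      simp only [Fin.append_left, Fin.append_right, Int.cast_zero, mul_zero,
        Finset.sum_const_zero, add_zero, Units.val_mk0]
      have h00 : s t * x t = s t * ∑ i, a t i * (u t i : ℤ) := congrArg (fun z => s t * z) (hx t)
      rw [← hsx t, h00]
      push_cast
      rw [Finset.mul_sum, Finset.mul_sum]
      exact Finset.sum_congr rfl fun i _ => by ring)
    (by
      rw [Fin.sum_univ_add]
      simp only [Fin.append_left, Fin.append_right, Int.cast_zero, mul_zero,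
        Finset.sum_const_zero, zero_add]
      have h1 : (((E ^ p * ((y t).natAbs : ℤ) : ℤ)) : ℚ) =
          (E : ℚ) ^ (p - 1) * ((E : ℚ) * (y t).natAbs) := by
        have h2 : E ^ p = E ^ (p - 1) * E := by rw [← pow_succ]; congr 1; omega
        rw [h2]
        push_cast [Nat.cast_natAbs]
        ring
      rw [h1, hEy, Finset.mul_sum]
      push_cast
      exact Finset.sum_congr rfl fun i _ => by ring)
    (by
      intro heq
      apply hne2
      have h1 : E ^ (p * q) * ((y t).natAbs : ℤ) ^ q = E ^ (p * q) * |x t| ^ p := by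
        rw [mul_pow, mul_pow, ← pow_mul, ← pow_mul, mul_comm q p] at heq
        exact heq
      exact mul_left_cancel₀ (pow_ne_zero _ hE0) h1)
  -- the final inequality
  have hθ2 : 1 - 1 / (p : ℝ) - 1 / (q : ℝ) - ε / 2 = θ + ε / 2 := by rw [hθ]; ring
  rw [hθ2] at hfin
  have h1 : Mx t / 2 ≤ max (|((E ^ q * |x t| : ℤ) : ℝ)| ^ p)
      (|((E ^ p * ((y t).natAbs : ℤ) : ℤ) : ℝ)| ^ q) := by
    refine le_trans (hXMx t ht1) (le_trans ?_ (le_max_left _ _))
    apply pow_le_pow_left₀ (hX0 t)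
    push_cast
    rw [abs_mul, abs_pow, abs_abs]
    have h2 : 1 ≤ |(E : ℝ)| ^ q := one_le_pow₀ hE1
    have h3 := hX0 t
    simp only [X] at h3 ⊢
    nlinarith
  have h2 : (Mx t / 2) ^ (θ + ε / 2) ≤ (K0 * Real.exp (δ * L t) ^ (p + q + 1)) ^ K0 *
      |(((E ^ p * ((y t).natAbs : ℤ) : ℤ) : ℝ)) ^ q - (((E ^ q * |x t| : ℤ)) : ℝ) ^ p| :=
    (Real.rpow_le_rpow (by linarith [hMx1 t]) h1 (by positivity)).trans hfin
  have h3 : |(((E ^ p * ((y t).natAbs : ℤ) : ℤ) : ℝ)) ^ q - (((E ^ q * |x t| : ℤ)) : ℝ) ^ p| ≤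
      Real.exp (δ * L t) ^ (p * q) * Mx t ^ θ := by
    have h4 : (((E ^ p * ((y t).natAbs : ℤ) : ℤ) : ℝ)) ^ q - (((E ^ q * |x t| : ℤ)) : ℝ) ^ p =
        (E : ℝ) ^ (p * q) * (Y t ^ q - X t ^ p) := by
      have h5 : (((y t).natAbs : ℤ) : ℝ) = Y t := by
        rw [Int.natCast_natAbs]; push_cast; rfl
      push_cast at h5 ⊢
      rw [h5, mul_pow, mul_pow, ← pow_mul, ← pow_mul, mul_comm q p]
      simp only [X]
      ring
    rw [h4, abs_mul, abs_pow]
    refine mul_le_mul (pow_le_pow_left₀ (abs_nonneg _) hEb _) ?_ (abs_nonneg _) (by positivity)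
    refine (hΔ t).trans ?_
    have h5 := hlt' t
    have h6 := hpowbase t
    have h7 := hbase t
    have h8 := hΔ1 t
    nlinarith
  have hMxpos : 0 < Mx t := by linarith [hMx1 t]
  have h4 : Mx t ^ (θ + ε / 2) / 2 ≤ (Mx t / 2) ^ (θ + ε / 2) := by
    rw [Real.div_rpow hMxpos.le (by norm_num)]
    apply div_le_div_of_nonneg_left (by positivity) (by positivity)
    calc (2 : ℝ) ^ (θ + ε / 2) ≤ 2 ^ (1 : ℝ) := by
          apply Real.rpow_le_rpow_of_exponent_le (by norm_num)
          have h5 : 0 < 1 / (p : ℝ) := by positivity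
          have h6 : 0 < 1 / (q : ℝ) := by positivity
          rw [hθ]; linarith
      _ = 2 := Real.rpow_one _
  have h5 : Mx t ^ (θ + ε / 2) = Mx t ^ θ * Mx t ^ (ε / 2) := Real.rpow_add hMxpos _ _
  have hMθpos : 0 < Mx t ^ θ := Real.rpow_pos_of_pos hMxpos _
  have h6 : Mx t ^ (ε / 2) ≤ 2 * (K0 * Real.exp (δ * L t) ^ (p + q + 1)) ^ K0 *
      Real.exp (δ * L t) ^ (p * q) := by
    have h7 := (h4.trans h2).trans (mul_le_mul_of_nonneg_left h3 (by positivity))
    rw [h5] at h7
    have h8 : Mx t ^ (ε / 2) * Mx t ^ θ ≤ (2 * (K0 * Real.exp (δ * L t) ^ (p + q + 1)) ^ K0 *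
        Real.exp (δ * L t) ^ (p * q)) * Mx t ^ θ := by nlinarith
    exact le_of_mul_le_mul_right h8 hMθpos
  have h7 : (K0 * Real.exp (δ * L t) ^ (p + q + 1)) ^ K0 =
      K0 ^ K0 * Real.exp (K0 * (p + q + 1) * δ * L t) := by
    rw [Real.mul_rpow hK00.le (by positivity), hexpn, ← Real.exp_mul]
    congr 2
    push_cast
    ring
  have h8 : 2 * (K0 * Real.exp (δ * L t) ^ (p + q + 1)) ^ K0 * Real.exp (δ * L t) ^ (p * q) ≤
      Real.exp (ε / 8 * L t) := by
    rw [h7, hexpn]
    calc 2 * (K0 ^ K0 * Real.exp (K0 * (p + q + 1) * δ * L t)) *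
          Real.exp (((p * q : ℕ) : ℝ) * δ * L t)
        = (2 * K0 ^ K0) * Real.exp ((K0 * (p + q + 1) + p * q) * δ * L t) := by
          rw [← mul_assoc 2, mul_assoc (2 * K0 ^ K0), ← Real.exp_add]
          congr 2
          push_cast
          ring
      _ ≤ Real.exp (ε / 16 * L t) * Real.exp (ε / 16 * L t) := by
          apply mul_le_mul hK0t _ (by positivity) (by positivity)
          apply Real.exp_le_exp.2
          apply mul_le_mul_of_nonneg_right _ hLpos.le
          rw [← hδA, hA]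
          nlinarith
      _ = Real.exp (ε / 8 * L t) := by rw [← Real.exp_add]; congr 1; ring
  have h9 : Real.exp (ε / 4 * L t) ≤ Mx t ^ (ε / 2) := by
    have h10 : Real.exp (1 / 2 * L t) ≤ Mx t := by
      refine hXlt.trans (le_trans ?_ (le_max_left _ _))
      exact le_self_pow₀ hX1 (by omega)
    calc Real.exp (ε / 4 * L t) = Real.exp (1 / 2 * L t) ^ (ε / 2) := by
          rw [← Real.exp_mul]; congr 1; ring
      _ ≤ Mx t ^ (ε / 2) := Real.rpow_le_rpow (Real.exp_pos _).le h10 (by positivity)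
  have h10 : Real.exp (ε / 4 * L t) ≤ Real.exp (ε / 8 * L t) := (h9.trans h6).trans h8
  rw [Real.exp_le_exp] at h10
  have h11 : 0 < ε * L t := mul_pos hε hLpos
  nlinarith

end Pool.Agent.TH419.HX
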