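import Mathlib
import Pool.Agent.TH419.HX.Hyp

/-!
# Integral points on hyperelliptic curves with a sparse ordinate
-/

set_option autoImplicit false

open Finset Filter Topology

namespace Pool.Agent.TH419.HX

open Pool.Agent.TH419.WI

section
open Polynomial

lemma sep_scaleRoots (f : ℚ[X]) (hf : f.Separable) (D : ℚ) (hD : D ≠ 0) :
    (f.scaleRoots D).Separable := by
  have h1 : f.scaleRoots D = C (D ^ f.natDegree) * f.comp (C D⁻¹ * X) := by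
    ext i
    rw [coeff_scaleRoots, coeff_C_mul, Polynomial.comp_C_mul_X_coeff]
    by_cases hi : i ≤ f.natDegree
    · have h2 : D ^ f.natDegree = D ^ (f.natDegree - i) * D ^ i := by rw [← pow_add]; congr 1; omega
      rw [h2, inv_pow]
      field_simp
    · rw [Polynomial.coeff_eq_zero_of_natDegree_lt (by omega)]
      simp
  rw [h1]
  have hu : IsUnit (C (D ^ f.natDegree) : ℚ[X]) := by
    rw [Polynomial.isUnit_C]
    exact (pow_ne_zero _ hD).isUnit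
  have h3 : (f.comp (C D⁻¹ * X)).Separable := by
    unfold Polynomial.Separable at hf ⊢
    rw [Polynomial.derivative_comp]
    have h4 : derivative (C D⁻¹ * X : ℚ[X]) = C D⁻¹ := by simp
    rw [h4]
    have h5 : IsCoprime (f.comp (C D⁻¹ * X)) ((derivative f).comp (C D⁻¹ * X)) := by
      have := hf.map (Polynomial.compRingHom (C D⁻¹ * X : ℚ[X]))
      simpa using this
    have hu2 : IsUnit (C D⁻¹ : ℚ[X]) := by
      rw [Polynomial.isUnit_C]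
      exact (inv_ne_zero hD).isUnit
    exact (isCoprime_mul_unit_left_right hu2 _ _).2 h5
  exact Polynomial.Separable.of_dvd h3 (by
    obtain ⟨v, hv⟩ := hu
    rw [← hv]
    exact Units.mul_left_dvd.2 dvd_rfl)

end

lemma powd (n : ℕ) (A B R : ℝ) (hA : |A| ≤ R) (hB : |B| ≤ R) :
    |(A + B) ^ (n + 2) - A ^ (n + 2) - (n + 2) * A ^ (n + 1) * B| ≤ 4 ^ (n + 2) * B ^ 2 * R ^ n := by
  have hR : 0 ≤ R := (abs_nonneg _).trans hA
  induction n with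
  | zero =>
    have h1 : (A + B) ^ (0 + 2) - A ^ (0 + 2) - (((0 : ℕ) : ℝ) + 2) * A ^ (0 + 1) * B = B ^ 2 := by
      push_cast; ring
    rw [h1, abs_of_nonneg (by positivity)]
    have h2 : 0 ≤ B ^ 2 := by positivity
    norm_num
    linarith
  | succ n ih =>
    have h1 : (A + B) ^ (n + 1 + 2) - A ^ (n + 1 + 2) - (((n + 1 : ℕ) : ℝ) + 2) * A ^ (n + 1 + 1) * B
        = (A + B) * ((A + B) ^ (n + 2) - A ^ (n + 2) - (n + 2) * A ^ (n + 1) * B) +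
          (n + 2) * A ^ (n + 1) * B ^ 2 := by
      push_cast; ring
    rw [h1]
    have h2 : |A + B| ≤ 2 * R := (abs_add_le _ _).trans (by linarith)
    have h3 : ((n : ℝ) + 2) ≤ 4 ^ (n + 2) := by
      have h4 : n + 2 < 4 ^ (n + 2) := Nat.lt_pow_self (by norm_num)
      exact_mod_cast h4.le
    have h4 : |A ^ (n + 1)| ≤ R ^ (n + 1) := by
      rw [abs_pow]; exact pow_le_pow_left₀ (abs_nonneg _) hA _
    have hB2 : 0 ≤ B ^ 2 := by positivity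
    calc |(A + B) * ((A + B) ^ (n + 2) - A ^ (n + 2) - (n + 2) * A ^ (n + 1) * B) +
          (n + 2) * A ^ (n + 1) * B ^ 2|
        ≤ |A + B| * |(A + B) ^ (n + 2) - A ^ (n + 2) - (n + 2) * A ^ (n + 1) * B| +
          ((n : ℝ) + 2) * |A ^ (n + 1)| * B ^ 2 := by
          refine (abs_add_le _ _).trans ?_
          rw [abs_mul, abs_mul, abs_mul, abs_of_nonneg hB2,
            abs_of_nonneg (by positivity : (0 : ℝ) ≤ (n : ℝ) + 2)]
      _ ≤ 2 * R * (4 ^ (n + 2) * B ^ 2 * R ^ n) + 4 ^ (n + 2) * R ^ (n + 1) * B ^ 2 :=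
          add_le_add (mul_le_mul h2 ih (abs_nonneg _) (by positivity))
            (mul_le_mul_of_nonneg_right (mul_le_mul h3 h4 (abs_nonneg _) (by positivity)) hB2)
      _ = 3 * (4 ^ (n + 2) * B ^ 2 * R ^ (n + 1)) := by ring
      _ ≤ 4 * (4 ^ (n + 2) * B ^ 2 * R ^ (n + 1)) := by
          have : 0 ≤ 4 ^ (n + 2) * B ^ 2 * R ^ (n + 1) := by positivity
          linarith
      _ = 4 ^ (n + 1 + 2) * B ^ 2 * R ^ (n + 1) := by ring

/-- lower terms of a polynomial -/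
lemma low_terms {f : Polynomial ℤ} {M X : ℝ} {x : ℤ} (hX : X = |(x : ℝ)|) (hX1 : 1 ≤ X)
    (hM : 1 ≤ M) (hcoef : ∀ i, |(f.coeff i : ℝ)| ≤ M) (m : ℕ) :
    |∑ j ∈ Finset.range (m + 1), (f.coeff j : ℝ) * (x : ℝ) ^ j| ≤ (m + 1) * M * X ^ m := by
  calc |∑ j ∈ Finset.range (m + 1), (f.coeff j : ℝ) * (x : ℝ) ^ j|
      ≤ ∑ j ∈ Finset.range (m + 1), |(f.coeff j : ℝ) * (x : ℝ) ^ j| :=
        Finset.abs_sum_le_sum_abs _ _
    _ ≤ ∑ _j ∈ Finset.range (m + 1), M * X ^ m := by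
        apply Finset.sum_le_sum
        intro j hj
        rw [abs_mul, abs_pow, ← hX]
        rw [Finset.mem_range] at hj
        exact mul_le_mul (hcoef j) (pow_le_pow_right₀ hX1 (by omega)) (by positivity)
          (by linarith)
    _ = (m + 1) * M * X ^ m := by
        rw [Finset.sum_const, Finset.card_range, nsmul_eq_mul]; push_cast; ring

/-- the value of a polynomial, top terms -/
lemma eval_top {n : ℕ} {f : Polynomial ℤ} (hfd : f.natDegree = n + 2) (x : ℤ) :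
    ((f.eval x : ℤ) : ℝ) = ∑ j ∈ Finset.range (n + 1), (f.coeff j : ℝ) * (x : ℝ) ^ j +
      (f.coeff (n + 1) : ℝ) * (x : ℝ) ^ (n + 1) + (f.coeff (n + 2) : ℝ) * (x : ℝ) ^ (n + 2) := by
  rw [Polynomial.eval_eq_sum_range, hfd, Finset.sum_range_succ, Finset.sum_range_succ]
  push_cast
  rfl

/-- the size of the value of a polynomial -/
lemma eval_size {n : ℕ} {f : Polynomial ℤ} (hfd : f.natDegree = n + 2) {M X : ℝ} {x : ℤ}
    (hX : X = |(x : ℝ)|) (hX1 : 1 ≤ X) (hM : 1 ≤ M) (hcoef : ∀ i, |(f.coeff i : ℝ)| ≤ M)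
    (hc : 1 ≤ |(f.coeff (n + 2) : ℝ)|) (hMX : 2 * (n + 3) * M ≤ X) :
    X ^ (n + 2) / 2 ≤ |((f.eval x : ℤ) : ℝ)| ∧ |((f.eval x : ℤ) : ℝ)| ≤ X ^ (n + 3) := by
  have h1 : ((f.eval x : ℤ) : ℝ) = ∑ j ∈ Finset.range (n + 1 + 1), (f.coeff j : ℝ) * (x : ℝ) ^ j +
      (f.coeff (n + 2) : ℝ) * (x : ℝ) ^ (n + 2) := by
    rw [eval_top hfd, Finset.sum_range_succ _ (n + 1)]
  have h2 := low_terms hX hX1 hM hcoef (n + 1)
  have hXp : 0 < X := by linarith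
  have h3 : |(f.coeff (n + 2) : ℝ) * (x : ℝ) ^ (n + 2)| = |(f.coeff (n + 2) : ℝ)| * X ^ (n + 2) := by
    rw [abs_mul, abs_pow, hX]
  have hXn : 0 < X ^ (n + 1) := by positivity
  have e2 : X ^ (n + 2) = X * X ^ (n + 1) := by ring
  have e3 : X ^ (n + 3) = X * X ^ (n + 2) := by ring
  have h4 : ((((n + 1 : ℕ) : ℝ) + 1) * M * X ^ (n + 1)) ≤ X ^ (n + 2) / 2 := by
    rw [e2]
    push_cast
    have h5 : ((n : ℝ) + 1 + 1) * M ≤ X / 2 := by nlinarith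
    have h6 := mul_le_mul_of_nonneg_right h5 hXn.le
    linarith
  constructor
  · have h5 : |(f.coeff (n + 2) : ℝ) * (x : ℝ) ^ (n + 2)| ≤ |((f.eval x : ℤ) : ℝ)| +
        |∑ j ∈ Finset.range (n + 1 + 1), (f.coeff j : ℝ) * (x : ℝ) ^ j| := by
      have h6 : (f.coeff (n + 2) : ℝ) * (x : ℝ) ^ (n + 2) = ((f.eval x : ℤ) : ℝ) -
          ∑ j ∈ Finset.range (n + 1 + 1), (f.coeff j : ℝ) * (x : ℝ) ^ j := by rw [h1]; ring
      rw [h6]
      exact abs_sub _ _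
    rw [h3] at h5
    have h6 : 0 < X ^ (n + 2) := by positivity
    nlinarith
  · have h5 : |((f.eval x : ℤ) : ℝ)| ≤
        |∑ j ∈ Finset.range (n + 1 + 1), (f.coeff j : ℝ) * (x : ℝ) ^ j| +
        |(f.coeff (n + 2) : ℝ)| * X ^ (n + 2) := by
      rw [h1, ← h3]
      exact abs_add_le _ _
    have h6 : 0 < X ^ (n + 2) := by positivity
    have h7 : |(f.coeff (n + 2) : ℝ)| * X ^ (n + 2) ≤ M * X ^ (n + 2) :=
      mul_le_mul_of_nonneg_right (hcoef _) h6.le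
    have h8 : (M + 1 / 2) * X ^ (n + 2) ≤ X * X ^ (n + 2) := by
      apply mul_le_mul_of_nonneg_right _ h6.le
      have h9 : (0 : ℝ) ≤ n := by positivity
      nlinarith
    rw [e3]
    linarith

/-- the `d`-th power of `d c x + f_{d-1}` is close to `d^d c^(d-1) f(x)` -/
lemma near_pow {n : ℕ} {f : Polynomial ℤ} (hfd : f.natDegree = n + 2) {M X : ℝ} {x : ℤ}
    (hX : X = |(x : ℝ)|) (hX1 : 1 ≤ X) (hM : 1 ≤ M) (hcoef : ∀ i, |(f.coeff i : ℝ)| ≤ M) :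
    |(((n : ℝ) + 2) * (f.coeff (n + 2) : ℝ) * x + (f.coeff (n + 1) : ℝ)) ^ (n + 2) -
      ((n : ℝ) + 2) ^ (n + 2) * (f.coeff (n + 2) : ℝ) ^ (n + 1) * ((f.eval x : ℤ) : ℝ)| ≤
      (4 ^ (n + 2) * ((n : ℝ) + 2) ^ n + ((n : ℝ) + 1) * ((n : ℝ) + 2) ^ (n + 2)) *
        M ^ (n + 2) * X ^ n := by
  set c : ℝ := (f.coeff (n + 2) : ℝ) with hc
  set b : ℝ := (f.coeff (n + 1) : ℝ) with hb
  have hM0 : 0 ≤ M := by linarith
  have hX0 : 0 ≤ X := by linarith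
  have hcM : |c| ≤ M := hcoef _
  have hbM : |b| ≤ M := hcoef _
  have hn2 : (0 : ℝ) ≤ (n : ℝ) + 2 := by positivity
  have hA : |((n : ℝ) + 2) * c * x| ≤ ((n : ℝ) + 2) * M * X := by
    rw [abs_mul, abs_mul, ← hX, abs_of_nonneg hn2]
    exact mul_le_mul_of_nonneg_right (mul_le_mul_of_nonneg_left hcM hn2) hX0
  have hB : |b| ≤ ((n : ℝ) + 2) * M * X := by
    refine hbM.trans ?_
    have h1 : 1 ≤ ((n : ℝ) + 2) * X := by
      have : (0 : ℝ) ≤ n := by positivity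
      nlinarith
    nlinarith
  have h1 := powd n (((n : ℝ) + 2) * c * x) b (((n : ℝ) + 2) * M * X) hA hB
  have h2 := low_terms hX hX1 hM hcoef n
  have h3 : (((n : ℝ) + 2) * c * x + b) ^ (n + 2) -
      ((n : ℝ) + 2) ^ (n + 2) * c ^ (n + 1) * ((f.eval x : ℤ) : ℝ) =
      ((((n : ℝ) + 2) * c * x + b) ^ (n + 2) - (((n : ℝ) + 2) * c * x) ^ (n + 2) -
        (n + 2) * (((n : ℝ) + 2) * c * x) ^ (n + 1) * b) -
      ((n : ℝ) + 2) ^ (n + 2) * c ^ (n + 1) *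
        ∑ j ∈ Finset.range (n + 1), (f.coeff j : ℝ) * (x : ℝ) ^ j := by
    rw [eval_top hfd, ← hc, ← hb]
    obtain ⟨s, hs⟩ : ∃ s : ℝ, s = ∑ j ∈ Finset.range (n + 1), (f.coeff j : ℝ) * (x : ℝ) ^ j :=
      ⟨_, rfl⟩
    rw [← hs]
    obtain ⟨a, ha⟩ : ∃ a : ℝ, a = (n : ℝ) + 2 := ⟨_, rfl⟩
    rw [← ha]
    ring
  rw [h3]
  refine (abs_sub _ _).trans ?_
  have h4 : |((n : ℝ) + 2) ^ (n + 2) * c ^ (n + 1) *
      ∑ j ∈ Finset.range (n + 1), (f.coeff j : ℝ) * (x : ℝ) ^ j| ≤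
      ((n : ℝ) + 2) ^ (n + 2) * M ^ (n + 1) * ((n + 1) * M * X ^ n) := by
    rw [abs_mul, abs_mul, abs_pow c, abs_of_nonneg (by positivity : (0 : ℝ) ≤ ((n : ℝ) + 2) ^ (n + 2))]
    exact mul_le_mul (mul_le_mul_of_nonneg_left (pow_le_pow_left₀ (abs_nonneg _) hcM _)
      (by positivity)) h2 (abs_nonneg _) (by positivity)
  have h5 : 4 ^ (n + 2) * b ^ 2 * (((n : ℝ) + 2) * M * X) ^ n ≤
      4 ^ (n + 2) * M ^ 2 * (((n : ℝ) + 2) * M * X) ^ n := by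
    apply mul_le_mul_of_nonneg_right _ (by positivity)
    apply mul_le_mul_of_nonneg_left _ (by positivity)
    rw [← sq_abs]
    exact pow_le_pow_left₀ (abs_nonneg _) hbM 2
  have h6 : 4 ^ (n + 2) * M ^ 2 * (((n : ℝ) + 2) * M * X) ^ n =
      4 ^ (n + 2) * ((n : ℝ) + 2) ^ n * M ^ (n + 2) * X ^ n := by
    obtain ⟨a, ha⟩ : ∃ a : ℝ, a = (n : ℝ) + 2 := ⟨_, rfl⟩
    rw [← ha, mul_pow, mul_pow]; ring
  have h7 : ((n : ℝ) + 2) ^ (n + 2) * M ^ (n + 1) * ((n + 1) * M * X ^ n) =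
      ((n : ℝ) + 1) * ((n : ℝ) + 2) ^ (n + 2) * M ^ (n + 2) * X ^ n := by ring
  linarith

end Pool.Agent.TH419.HX
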