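import Mathlib
import Pool.Agent.TH419.HX.HypY

/-!
# Integral points on hyperelliptic curves with a sparse ordinate: the theorem
-/

set_option autoImplicit false

open Finset Filter Topology

namespace Pool.Agent.TH419.HX

open Pool.Agent.TH419.WI

/-- the expansion of the square of a sum -/
lemma sq_expand {k : ℕ} (a : Fin (k + 1) → ℤ) (u : Fin (k + 1) → ℕ) :
    (∑ i, a i * (u i : ℤ)) ^ 2 = ∑ g : Fin 2 → Fin (k + 1),
      (∏ i, a (g i)) * ∏ i, (u (g i) : ℤ) := by
  rw [Fintype.sum_pow (fun i => a i * (u i : ℤ)) 2]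
  exact Finset.sum_congr rfl fun g _ => Finset.prod_mul_distrib

/-- **Integral points with a sparse ordinate on hyperelliptic curves.** -/
theorem hypY (n k H : ℕ) (hn : 1 ≤ n) (S : Finset ℕ) (hS : ∀ p ∈ S, p.Prime) (η : ℝ)
    (hη : 0 < η) :
    ∃ C : ℝ, ∀ f : Polynomial ℤ, f.natDegree = n + 2 → (f.map (Int.castRingHom ℚ)).Separable →
      ∀ M : ℝ, 1 ≤ M → (∀ i, |(f.coeff i : ℝ)| ≤ M) →
      ∀ (u : Fin (k + 1) → ℕ) (b : Fin (k + 1) → ℤ), (∀ i, Smooth S (u i)) →
        (∀ i, i ≠ 0 → (u i : ℝ) ≤ (u 0 : ℝ) ^ (1 - η)) → b 0 ≠ 0 → (∀ i, |(b i : ℝ)| ≤ M) →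
        ∀ e h : ℤ, f.leadingCoeff ^ (n + 1) * b 0 ^ 2 = e * h ^ (n + 2) → |e| ≤ H →
        ∀ x y : ℤ, y = ∑ i, b i * (u i : ℤ) → y ^ 2 = f.eval x →
        Real.log (max |(x : ℝ)| 1) ≤ C * (1 + Real.log M) := by
  classical
  have hη'0 : 0 < min η 1 := lt_min hη one_pos
  obtain ⟨κ, hκ⟩ : ∃ κ : ℝ, κ = 1 / (2 * ((n : ℝ) + 3)) := ⟨_, rfl⟩
  have hκ0 : 0 < κ := by rw [hκ]; positivity
  obtain ⟨N, hN⟩ := nearRoot (ι := Fin 2 → Fin (k + 1)) S hS (n + 2) ((n + 2) ^ (n + 2) * H)
    (by omega) (2 : ℝ) (min η 1) κ (by norm_num) hη'0 hκ0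
  obtain ⟨C0, hC0⟩ := app551 (n + 2) (k + 1 + N + 1) (by omega) (GamS S) (gamS_fg S)
  by_contra hcon
  push Not at hcon
  choose f hfd hsep M hM hcoef u b hu hdom hb0 hbM e h heh heH x y hy hyx hlt using
    fun n : ℕ => hcon n
  set η' : ℝ := min η 1 with hη'
  have hη'1 : η' ≤ 1 := min_le_right _ _
  have hn0 : (0 : ℝ) ≤ n := by positivity
  have hu1 : ∀ t i, 1 ≤ u t i := fun t i => Nat.one_le_iff_ne_zero.2 (hu t i).1
  have hdom' : ∀ t i, i ≠ 0 → (u t i : ℝ) ≤ (u t 0 : ℝ) ^ (1 - η') := by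
    intro t i hi
    refine (hdom t i hi).trans ?_
    apply Real.rpow_le_rpow_of_exponent_le
    · exact_mod_cast hu1 t 0
    · have : η' ≤ η := min_le_left _ _
      linarith
  have hlogM : ∀ t, 0 ≤ Real.log (M t) := fun t => Real.log_nonneg (hM t)
  -- the sizes of the abscissas
  let X : ℕ → ℝ := fun t => |(x t : ℝ)|
  let Y : ℕ → ℝ := fun t => |(y t : ℝ)|
  have hXlog : ∀ t : ℕ, 1 ≤ t → 1 < X t ∧ (t : ℝ) * (1 + Real.log (M t)) < Real.log (X t) := by
    intro t ht
    have h1 := hlt t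
    have ht' : (1 : ℝ) ≤ t := by exact_mod_cast ht
    have h2 : 0 < Real.log (max |(x t : ℝ)| 1) := by
      have := hlogM t
      nlinarith
    have h3 : 1 < max |(x t : ℝ)| 1 := by
      by_contra h4
      push Not at h4
      have h5 : max |(x t : ℝ)| 1 = 1 := le_antisymm h4 (le_max_right _ _)
      rw [h5, Real.log_one] at h2
      exact lt_irrefl _ h2
    have h4 : max |(x t : ℝ)| 1 = |(x t : ℝ)| := by
      rcases max_choice |(x t : ℝ)| 1 with h5 | h5
      · exact h5
      · rw [h5] at h3; exact absurd h3 (lt_irrefl _)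
    rw [h4] at h1 h3
    exact ⟨h3, h1⟩
  have hXt : Tendsto X atTop atTop := by
    refine tendsto_atTop_mono' _ ?_ tendsto_natCast_atTop_atTop
    filter_upwards [eventually_ge_atTop 1] with t ht
    obtain ⟨h1, h2⟩ := hXlog t ht
    have h3 : Real.log (X t) ≤ X t := Real.log_le_self (by linarith)
    have h4 : (t : ℝ) ≤ t * (1 + Real.log (M t)) := by
      have := hlogM t
      have ht' : (0 : ℝ) ≤ t := by positivity
      nlinarith
    linarith
  have hMX : ∀ ε : ℝ, 0 < ε → ∀ᶠ t in atTop, M t ≤ X t ^ ε := by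
    intro ε hε
    obtain ⟨n0, hn0⟩ := exists_nat_ge (1 / ε)
    filter_upwards [eventually_ge_atTop (max n0 1)] with t ht
    obtain ⟨h1, h2⟩ := hXlog t (le_trans (le_max_right _ _) ht)
    have ht' : 1 / ε ≤ t := hn0.trans (by exact_mod_cast le_trans (le_max_left _ _) ht)
    rw [div_le_iff₀ hε] at ht'
    have h3 : Real.log (M t) ≤ ε * Real.log (X t) := by
      have h4 := hlogM t
      have h5 : (t : ℝ) * Real.log (M t) ≤ Real.log (X t) := by
        have : (0 : ℝ) ≤ t := by positivity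
        nlinarith
      have h6 := mul_le_mul_of_nonneg_left h5 hε.le
      have h7 : Real.log (M t) ≤ ε * (t * Real.log (M t)) := by nlinarith
      linarith
    calc M t = Real.exp (Real.log (M t)) := (Real.exp_log (by linarith [hM t])).symm
      _ ≤ Real.exp (ε * Real.log (X t)) := Real.exp_le_exp.2 h3
      _ = X t ^ ε := by rw [Real.rpow_def_of_pos (by linarith)]; congr 1; ring
  have hc0 : ∀ t, (f t).coeff (n + 2) ≠ 0 := by
    intro t h0
    have h1 : (f t).leadingCoeff = 0 := by rw [Polynomial.leadingCoeff, hfd t, h0]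
    rw [Polynomial.leadingCoeff_eq_zero] at h1
    have h2 := hfd t
    rw [h1, Polynomial.natDegree_zero] at h2
    omega
  have hc1 : ∀ t, (1 : ℝ) ≤ |((f t).coeff (n + 2) : ℝ)| := fun t => by
    have : 1 ≤ |(f t).coeff (n + 2)| := Int.one_le_abs (hc0 t)
    exact_mod_cast this
  have hYX0 : ∀ t, Y t ^ 2 = |(((f t).eval (x t) : ℤ) : ℝ)| := fun t => by
    rw [← hyx t]
    push_cast
    rw [abs_pow]
  have hYsize : ∀ᶠ t in atTop, X t ^ (n + 2) / 2 ≤ Y t ^ 2 ∧ Y t ^ 2 ≤ X t ^ (n + 3) := by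
    have h1 : ∀ᶠ t in atTop, 2 * ((n : ℝ) + 3) ≤ X t ^ (1 / 2 : ℝ) :=
      ((tendsto_rpow_atTop (by norm_num : (0 : ℝ) < 1 / 2)).comp hXt).eventually_ge_atTop _
    filter_upwards [h1, hMX (1 / 2) (by norm_num), hXt.eventually_ge_atTop 1] with t h2 h3 h4
    rw [hYX0 t]
    refine eval_size (hfd t) rfl h4 (hM t) (hcoef t) (hc1 t) ?_
    calc 2 * ((n : ℝ) + 3) * M t ≤ X t ^ (1 / 2 : ℝ) * X t ^ (1 / 2 : ℝ) :=
          mul_le_mul h2 h3 (by linarith [hM t]) (by positivity)
      _ = X t := by rw [← Real.rpow_add (by linarith)]; norm_num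
  have hYX : ∀ᶠ t in atTop, X t ≤ Y t := by
    filter_upwards [hYsize, hXt.eventually_ge_atTop 2] with t h1 h2
    have h3 : X t ^ 2 ≤ Y t ^ 2 := by
      refine le_trans ?_ h1.1
      have h4 : X t ^ (n + 2) = X t ^ 2 * X t ^ n := by ring
      have h5 : X t ^ 1 ≤ X t ^ n := pow_le_pow_right₀ (by linarith) hn
      rw [pow_one] at h5
      rw [h4]
      have h6 : 0 < X t ^ 2 := by positivity
      nlinarith
    exact (pow_le_pow_iff_left₀ (abs_nonneg _) (abs_nonneg _) (by norm_num)).1 h3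
  have hYt : Tendsto Y atTop atTop := tendsto_atTop_mono' _ hYX hXt
  have hMY : ∀ ε : ℝ, 0 < ε → ∀ᶠ t in atTop, M t ≤ Y t ^ ε := by
    intro ε hε
    filter_upwards [hMX ε hε, hYX] with t h1 h2
    exact h1.trans (Real.rpow_le_rpow (abs_nonneg _) h2 hε.le)
  obtain ⟨hL, hMS, -, hYlow, -⟩ := sizes hη'0 u b M Y hM hu1 hdom' hbM hb0
    (fun t => by
      simp only [Y]
      rw [hy t]
      push_cast
      rfl) hYt hMY
  set L : ℕ → ℝ := fun t => Real.log (u t 0) with hLdef
  -- lower bound for the abscissa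
  have hXlow : ∀ᶠ t in atTop, Real.exp (2 * κ * L t) ≤ X t := by
    filter_upwards [hYsize, hYlow, hXt.eventually_ge_atTop 1] with t h1 h2 h3
    have h4 : Real.exp (L t) ≤ X t ^ (n + 3) := by
      refine le_trans ?_ h1.2
      calc Real.exp (L t) = Real.exp (1 / 2 * L t) ^ 2 := by
            rw [← Real.exp_nat_mul]; congr 1; push_cast; ring
        _ ≤ Y t ^ 2 := pow_le_pow_left₀ (Real.exp_pos _).le h2 2
    have h5 : Real.exp (2 * κ * L t) ^ (n + 3) = Real.exp (L t) := by
      rw [← Real.exp_nat_mul, hκ]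
      congr 1
      push_cast
      field_simp
    rw [← h5] at h4
    exact (pow_le_pow_iff_left₀ (Real.exp_pos _).le (by linarith) (by omega)).1 h4
  -- the integers close to roots
  let Z : ℕ → ℤ := fun t => ((n : ℤ) + 2) * (f t).coeff (n + 2) * x t + (f t).coeff (n + 1)
  let F : ℕ → ℝ := fun t => ((n : ℝ) + 2) ^ (n + 2) * ((f t).coeff (n + 2) : ℝ) ^ (n + 1) *
    (y t : ℝ) ^ 2
  obtain ⟨Cn, hCn⟩ : ∃ Cn : ℝ, Cn = 4 ^ (n + 2) * ((n : ℝ) + 2) ^ n +
    ((n : ℝ) + 1) * ((n : ℝ) + 2) ^ (n + 2) := ⟨_, rfl⟩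
  have hCn0 : 0 < Cn := by rw [hCn]; positivity
  have hZF : ∀ t : ℕ, 1 ≤ t → |(Z t : ℝ) ^ (n + 2) - F t| ≤ Cn * M t ^ (n + 2) * X t ^ n := by
    intro t ht
    have h1 := near_pow (hfd t) (M := M t) (X := X t) (x := x t) rfl (hXlog t ht).1.le (hM t)
      (hcoef t)
    rw [← hyx t, ← hCn] at h1
    simp only [Z, F]
    push_cast at h1 ⊢
    exact h1
  have hMC : ∀ᶠ t in atTop, Cn * 2 ^ (n + 1) * M t ^ (n + 2) ≤ Real.exp (κ * L t) := by
    have h1 : Sub L fun t => Cn * 2 ^ (n + 1) * M t ^ (n + 2) :=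
      (Sub.const hL (Cn * 2 ^ (n + 1))).mul (hMS.pow hL (n + 2))
    filter_upwards [h1 κ hκ0] with t ht
    exact (le_abs_self _).trans ht
  -- the data for the theorem on roots
  let ρ : ℕ → ℕ := fun t => u t 0 ^ 2
  let r : ℕ → (Fin 2 → Fin (k + 1)) → ℕ := fun t g => if g = 0 then 1 else ∏ i, u t (g i)
  let lam : ℕ → (Fin 2 → Fin (k + 1)) → ℤ := fun t g => if g = 0 then 0 else
    ((n : ℤ) + 2) ^ (n + 2) * (f t).coeff (n + 2) ^ (n + 1) * ∏ i, b t (g i)
  have hr1 : ∀ t g, (r t g : ℝ) ≤ ρ t * Real.exp (-(η' * L t)) := by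
    intro t g
    by_cases hg : g = 0
    · have h1 := prod_le_dom (j := 0) (d := 2) hη'1 (hu1 t) (hdom' t) hη'0.le (Nat.zero_le 2)
        (fun i => i.elim0) (Or.inl (by norm_num))
      simp only [r, if_pos hg, ρ, hLdef]
      simpa using h1
    · simp only [r, if_neg hg]
      refine prod_le_dom hη'1 (hu1 t) (hdom' t) hη'0.le le_rfl g (Or.inr ?_)
      by_contra hno
      push Not at hno
      exact hg (funext hno)
  have hbS : ∀ i, Sub L fun t => (b t i : ℝ) := fun i =>
    hMS.mono (Eventually.of_forall fun t => by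
      rw [abs_of_nonneg (by linarith [hM t] : (0 : ℝ) ≤ M t)]; exact hbM t i)
  have hcS : Sub L fun t => ((f t).coeff (n + 2) : ℝ) :=
    hMS.mono (Eventually.of_forall fun t => by
      rw [abs_of_nonneg (by linarith [hM t] : (0 : ℝ) ≤ M t)]; exact hcoef t _)
  have hlamS : ∀ g, Sub L fun t => (lam t g : ℝ) := by
    intro g
    by_cases hg : g = 0
    · simp only [lam, if_pos hg]
      exact_mod_cast Sub.const hL 0
    · simp only [lam, if_neg hg]
      have h1 := ((Sub.const hL (((n : ℝ) + 2) ^ (n + 2))).mul (hcS.pow hL (n + 1))).mul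
        (Sub.prod hL Finset.univ fun i (_ : i ∈ (Finset.univ : Finset (Fin 2))) => hbS (g i))
      intro ε hε
      filter_upwards [h1 ε hε] with t ht
      push_cast
      exact ht
  have heh' : ∀ t, (f t).coeff (n + 2) ^ (n + 1) * b t 0 ^ 2 = e t * h t ^ (n + 2) := fun t => by
    have h1 := heh t
    rwa [Polynomial.leadingCoeff, hfd t] at h1
  have hne : ∀ t, e t * h t ^ (n + 2) ≠ 0 := fun t => by
    rw [← heh' t]
    exact mul_ne_zero (pow_ne_zero _ (hc0 t)) (pow_ne_zero _ (hb0 t))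
  have he0 : ∀ t, e t ≠ 0 := fun t h0 => hne t (by rw [h0, zero_mul])
  have hh0 : ∀ t, h t ≠ 0 := fun t h0 => hne t (by rw [h0]; simp)
  have hehR : ∀ t, |((f t).coeff (n + 2) : ℝ)| ^ (n + 1) * |(b t 0 : ℝ)| ^ 2 =
      |(e t : ℝ)| * |(h t : ℝ)| ^ (n + 2) := by
    intro t
    rw [← abs_pow, ← abs_pow, ← abs_pow, ← abs_mul, ← abs_mul]
    congr 1
    exact_mod_cast heh' t
  have hhS : Sub L fun t => (((h t).natAbs : ℕ) : ℝ) := by
    refine (hMS.pow hL (n + 3)).mono (Eventually.of_forall fun t => ?_)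
    have h1 : |((h t).natAbs : ℝ)| = |(h t : ℝ)| := by
      rw [Nat.cast_natAbs]; push_cast; rw [abs_abs]
    have hM0 : 0 ≤ M t := by linarith [hM t]
    rw [h1, abs_of_nonneg (by positivity : (0 : ℝ) ≤ M t ^ (n + 3))]
    have h2 : (1 : ℝ) ≤ |(h t : ℝ)| := by
      have : 1 ≤ |h t| := Int.one_le_abs (hh0 t)
      exact_mod_cast this
    have h3 : (1 : ℝ) ≤ |(e t : ℝ)| := by
      have : 1 ≤ |e t| := Int.one_le_abs (he0 t)
      exact_mod_cast this
    calc |(h t : ℝ)| ≤ |(h t : ℝ)| ^ (n + 2) := le_self_pow₀ h2 (by omega)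
      _ ≤ |(e t : ℝ)| * |(h t : ℝ)| ^ (n + 2) := by
          have : 0 ≤ |(h t : ℝ)| ^ (n + 2) := by positivity
          nlinarith
      _ = |((f t).coeff (n + 2) : ℝ)| ^ (n + 1) * |(b t 0 : ℝ)| ^ 2 := (hehR t).symm
      _ ≤ M t ^ (n + 1) * M t ^ 2 := mul_le_mul (pow_le_pow_left₀ (abs_nonneg _) (hcoef t _) _)
          (pow_le_pow_left₀ (abs_nonneg _) (hbM t 0) _) (by positivity) (by positivity)
      _ = M t ^ (n + 3) := by ring
  -- the value
  have hval : ∀ t, F t = ((n : ℝ) + 2) ^ (n + 2) * ((f t).coeff (n + 2) : ℝ) ^ (n + 1) *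
      (b t 0 : ℝ) ^ 2 * (ρ t : ℝ) + ∑ g, (r t g : ℝ) * lam t g := by
    intro t
    obtain ⟨A, hA⟩ : ∃ A : ℤ, A = ((n : ℤ) + 2) ^ (n + 2) * (f t).coeff (n + 2) ^ (n + 1) :=
      ⟨_, rfl⟩
    have h1 : A * y t ^ 2 = ∑ g : Fin 2 → Fin (k + 1),
        A * ((∏ i, b t (g i)) * ∏ i, (u t (g i) : ℤ)) := by
      rw [hy t, sq_expand (b t) (u t), Finset.mul_sum]
    let T : (Fin 2 → Fin (k + 1)) → ℤ := fun g => A * ((∏ i, b t (g i)) *
      ∏ i, (u t (g i) : ℤ))
    have h2 : ∑ g, T g = T 0 + ∑ g, (r t g : ℤ) * lam t g := by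
      have h3 : ∀ g, T g = (if g = 0 then T g else 0) + (r t g : ℤ) * lam t g := by
        intro g
        by_cases hg : g = 0
        · simp only [r, lam, if_pos hg]; ring
        · simp only [r, lam, if_neg hg, T, hA]; push_cast; ring
      conv_lhs => rw [Finset.sum_congr rfl fun σ _ => h3 σ]
      rw [Finset.sum_add_distrib, Finset.sum_ite_eq' Finset.univ 0, if_pos (Finset.mem_univ _)]
    have h3 : T 0 = A * b t 0 ^ 2 * (ρ t : ℤ) := by
      simp only [T, ρ]
      simp
      ring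
    have h4 : A * y t ^ 2 = A * b t 0 ^ 2 * (ρ t : ℤ) + ∑ g, (r t g : ℤ) * lam t g := by
      rw [← h3, ← h2]; exact h1
    have h5 : ((A * y t ^ 2 : ℤ) : ℝ) =
        ((A * b t 0 ^ 2 * (ρ t : ℤ) + ∑ g, (r t g : ℤ) * lam t g : ℤ) : ℝ) := by rw [h4]
    rw [hA] at h5
    simp only [F]
    push_cast at h5 ⊢
    linarith
  have hFabs : ∀ t, Y t ^ 2 ≤ |F t| := by
    intro t
    simp only [F, Y]
    rw [abs_mul, abs_mul, abs_pow, abs_pow, abs_pow]
    have h1 : (1 : ℝ) ≤ |(n : ℝ) + 2| ^ (n + 2) := by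
      apply one_le_pow₀
      rw [abs_of_nonneg (by positivity)]
      linarith
    have h2 : (1 : ℝ) ≤ |((f t).coeff (n + 2) : ℝ)| ^ (n + 1) := one_le_pow₀ (hc1 t)
    have h3 : 0 ≤ |(y t : ℝ)| ^ 2 := by positivity
    have h4 : 1 ≤ |(n : ℝ) + 2| ^ (n + 2) * |((f t).coeff (n + 2) : ℝ)| ^ (n + 1) :=
      one_le_mul_of_one_le_of_one_le h1 h2
    nlinarith
  have hsub : ∀ ε : ℝ, 0 < ε → ∃ᶠ t in atTop, ∃ (E : ℤ) (w : Fin N → ℚˣ) (c : Fin N → ℤ),
        E ≠ 0 ∧ |(E : ℝ)| ≤ Real.exp (ε * L t) ∧ (∀ j, w j ∈ GamS S) ∧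
        (∀ j, |(c j : ℝ)| ≤ Real.exp (ε * L t)) ∧
        (E : ℚ) * (Z t).natAbs = ∑ j, ((w j : ℚˣ) : ℚ) * c j := by
    refine hN L hL ρ r lam (fun t => (n + 2) ^ (n + 2) * (e t).natAbs) (fun t => (h t).natAbs)
      (fun t => (Z t).natAbs) (fun t => smooth_pow (hu t 0) 2) ?_ ?_ (Eventually.of_forall hr1)
      hlamS ?_ ?_ hhS ?_
    · intro t g
      by_cases hg : g = 0
      · simp only [r, if_pos hg]; exact smooth_one S
      · simp only [r, if_neg hg]; exact smooth_prod _ fun i _ => hu t _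
    · refine Eventually.of_forall fun t => ?_
      have h1 : (0 : ℝ) < u t 0 := by
        have := hu1 t 0
        exact_mod_cast this
      simp only [ρ, hLdef]
      push_cast
      rw [mul_comm, Real.exp_mul, Real.exp_log h1]
      exact_mod_cast le_rfl
    · intro t
      refine ⟨Nat.mul_pos (by positivity) (Int.natAbs_pos.2 (he0 t)), ?_⟩
      have h1 := heH t
      rw [Int.abs_eq_natAbs] at h1
      exact Nat.mul_le_mul_left _ (by exact_mod_cast h1)
    · intro t
      exact Int.natAbs_pos.2 (hh0 t)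
    · filter_upwards [hYsize, hXlow, hMC, hXt.eventually_ge_atTop 2, eventually_ge_atTop 1,
        hL.eventually_ge_atTop 0] with t hYs hXl hMCt hX2 ht1 hLt
      have hXpos : 0 < X t := by linarith
      have hZFt := hZF t ht1
      have hM0 : 0 ≤ M t := by linarith [hM t]
      have hXn : 0 < X t ^ n := by positivity
      -- the error term is small compared with `X ^ (n + 1)`
      have hexp2 : Real.exp (2 * κ * L t) = Real.exp (κ * L t) * Real.exp (κ * L t) := by
        rw [← Real.exp_add]; congr 1; ring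
      have herr : Cn * M t ^ (n + 2) * X t ^ n ≤
          (X t / 2) ^ (n + 1) * Real.exp (-(κ * L t)) := by
        have h1 : Cn * 2 ^ (n + 1) * M t ^ (n + 2) ≤ X t * Real.exp (-(κ * L t)) := by
          refine hMCt.trans ?_
          calc Real.exp (κ * L t) = Real.exp (2 * κ * L t) * Real.exp (-(κ * L t)) := by
                rw [← Real.exp_add]; congr 1; ring
            _ ≤ X t * Real.exp (-(κ * L t)) :=
                mul_le_mul_of_nonneg_right hXl (Real.exp_pos _).le
        have h2 : (X t / 2) ^ (n + 1) * Real.exp (-(κ * L t)) =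
            (X t * Real.exp (-(κ * L t))) * X t ^ n / 2 ^ (n + 1) := by
          rw [div_pow]; ring
        rw [h2, le_div_iff₀ (by positivity)]
        calc Cn * M t ^ (n + 2) * X t ^ n * 2 ^ (n + 1) =
              (Cn * 2 ^ (n + 1) * M t ^ (n + 2)) * X t ^ n := by ring
          _ ≤ _ := mul_le_mul_of_nonneg_right h1 hXn.le
      have hexpm : Real.exp (-(κ * L t)) ≤ 1 := by
        rw [Real.exp_le_one_iff]
        have : 0 ≤ κ * L t := by positivity
        linarith
      have herr2 : Cn * M t ^ (n + 2) * X t ^ n ≤ X t ^ (n + 2) / 4 := by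
        refine herr.trans ?_
        have h1 : (X t / 2) ^ (n + 1) ≤ X t ^ (n + 1) / 2 := by
          rw [div_pow]
          apply div_le_div_of_nonneg_left (by positivity) (by norm_num)
          exact le_self_pow₀ (by norm_num) (by omega)
        have h2 : X t ^ (n + 2) = X t * X t ^ (n + 1) := by ring
        have h3 : 0 < X t ^ (n + 1) := by positivity
        have h4 : 0 ≤ (X t / 2) ^ (n + 1) := by positivity
        nlinarith
      have hFbig : X t ^ (n + 2) / 2 ≤ |F t| := hYs.1.trans (hFabs t)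
      have hXn2 : 0 < X t ^ (n + 2) := by positivity
      -- positivity
      have hcpos : 0 < ((f t).coeff (n + 2) : ℝ) ^ (n + 1) := by
        by_contra hneg
        push Not at hneg
        have hcne : ((f t).coeff (n + 2) : ℝ) ^ (n + 1) ≠ 0 :=
          pow_ne_zero _ (by exact_mod_cast hc0 t)
        have hneg' : ((f t).coeff (n + 2) : ℝ) ^ (n + 1) < 0 := lt_of_le_of_ne hneg hcne
        have hodd : ¬ Even (n + 1) := fun hev => by
          have := hev.pow_nonneg ((f t).coeff (n + 2) : ℝ)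
          linarith
        have hev : Even (n + 2) := by
          rw [Nat.not_even_iff_odd] at hodd
          exact hodd.add_one
        have hZ0 : 0 ≤ (Z t : ℝ) ^ (n + 2) := hev.pow_nonneg _
        have hF0 : F t ≤ 0 := by
          simp only [F]
          have h1 : 0 ≤ ((n : ℝ) + 2) ^ (n + 2) := by positivity
          have h2 : 0 ≤ (y t : ℝ) ^ 2 := sq_nonneg _
          have h3 : ((n : ℝ) + 2) ^ (n + 2) * ((f t).coeff (n + 2) : ℝ) ^ (n + 1) ≤ 0 :=
            mul_nonpos_of_nonneg_of_nonpos h1 hneg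
          exact mul_nonpos_of_nonpos_of_nonneg h3 h2
        rw [abs_of_nonpos hF0] at hFbig
        have h1 := (abs_le.1 hZFt).2
        linarith
      have hFpos : 0 < F t := by
        have hF0 : 0 ≤ F t := by
          simp only [F]
          have h1 : 0 ≤ ((n : ℝ) + 2) ^ (n + 2) := by positivity
          have h2 : 0 ≤ (y t : ℝ) ^ 2 := sq_nonneg _
          exact mul_nonneg (mul_nonneg h1 hcpos.le) h2
        rw [abs_of_nonneg hF0] at hFbig
        linarith
      rw [abs_of_pos hFpos] at hFbig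
      have hZabs : (((Z t).natAbs : ℕ) : ℝ) ^ (n + 2) = (Z t : ℝ) ^ (n + 2) := by
        have h1 : (((Z t).natAbs : ℕ) : ℝ) = |(Z t : ℝ)| := by
          rw [Nat.cast_natAbs]; push_cast; rfl
        rw [h1, ← abs_pow, abs_of_nonneg]
        have h2 := (abs_le.1 hZFt).1
        linarith
      -- the real root
      have hXn21 : 1 ≤ X t ^ (n + 2) := one_le_pow₀ (by linarith)
      have hX4 : 4 ≤ X t ^ (n + 2) := by
        calc (4 : ℝ) = 2 ^ 2 := by norm_num
          _ ≤ X t ^ 2 := pow_le_pow_left₀ (by norm_num) hX2 2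
          _ ≤ X t ^ (n + 2) := pow_le_pow_right₀ (by linarith) (by omega)
      obtain ⟨G, hG⟩ : ∃ G : ℝ, G = F t ^ ((1 : ℝ) / ((n + 2 : ℕ) : ℝ)) := ⟨_, rfl⟩
      have hGq : G ^ (n + 2) = F t := by
        rw [hG, ← Real.rpow_natCast, ← Real.rpow_mul hFpos.le, one_div, inv_mul_cancel₀,
          Real.rpow_one]
        positivity
      have hGpos : 0 < G := by rw [hG]; exact Real.rpow_pos_of_pos hFpos _
      have hG1 : 1 ≤ G := by
        rw [hG]
        exact Real.one_le_rpow (by linarith) (by positivity)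
      have hGX : X t / 2 ≤ G := by
        have h1 : (X t / 2) ^ (n + 2) ≤ G ^ (n + 2) := by
          rw [hGq]
          refine le_trans ?_ hFbig
          rw [div_pow]
          apply div_le_div_of_nonneg_left (by positivity) (by norm_num)
          exact le_self_pow₀ (by norm_num) (by omega)
        exact (pow_le_pow_iff_left₀ (by positivity) hGpos.le (by omega)).1 h1
      refine ⟨G, hG1, ?_, ?_⟩
      · rw [hGq, hval t]
        congr 2
        have h9 : (((e t).natAbs : ℕ) : ℝ) = |(e t : ℝ)| := by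
          rw [Nat.cast_natAbs]; push_cast; rfl
        have h10 : (((h t).natAbs : ℕ) : ℝ) = |(h t : ℝ)| := by
          rw [Nat.cast_natAbs]; push_cast; rfl
        have h11 : ((f t).coeff (n + 2) : ℝ) ^ (n + 1) * (b t 0 : ℝ) ^ 2 =
            |(e t : ℝ)| * |(h t : ℝ)| ^ (n + 2) := by
          rw [← hehR t, ← abs_pow, abs_of_pos hcpos, sq_abs]
        push_cast
        rw [h9, h10, mul_assoc, h11]
        ring
      · rw [hGq, hZabs]
        refine hZFt.trans (herr.trans ?_)
        apply mul_le_mul_of_nonneg_right _ (Real.exp_pos _).le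
        exact pow_le_pow_left₀ (by positivity) hGX _
  -- the end of the proof
  obtain ⟨m, hm⟩ : ∃ m : ℕ, m = 6 * (n + 2) + 1 := ⟨_, rfl⟩
  have hmpos : (0 : ℝ) < m := by
    have : 0 < m := by omega
    exact_mod_cast this
  have hC0' : 0 ≤ |C0| := abs_nonneg _
  obtain ⟨δ, hδ⟩ : ∃ δ : ℝ, δ = κ / (2 * (m * (|C0| + 1))) := ⟨_, rfl⟩
  have hδpos : 0 < δ := by rw [hδ]; positivity
  have hδ2 : |C0| * (m * δ) ≤ κ / 2 := by
    have h1 : m * δ = κ / (2 * (|C0| + 1)) := by rw [hδ]; field_simp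
    rw [h1, mul_div_assoc', div_le_div_iff₀ (by positivity) (by norm_num)]
    nlinarith
  obtain ⟨t, ⟨E, w, c, hE0, hEb, hw, hc, hEy⟩, hMt, hLbig, hLpos, hXlt, hn2, ht1⟩ :=
    ((hsub δ hδpos).and_eventually ((hMS δ hδpos).and
      ((hL.eventually_ge_atTop (2 * |C0| / κ)).and ((hL.eventually_gt_atTop 0).and
        (hXlow.and ((ev_const_le hL ((n : ℝ) + 2) δ hδpos).and
          (eventually_ge_atTop 1))))))).exists
  rw [abs_of_nonneg (by linarith [hM t] : (0 : ℝ) ≤ M t)] at hMt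
  have hexp1 : 1 ≤ Real.exp (δ * L t) := by
    rw [← Real.exp_zero]
    exact Real.exp_le_exp.2 (by positivity)
  have hexpm : ∀ m n : ℕ, m ≤ n → Real.exp (δ * L t) ^ m ≤ Real.exp (δ * L t) ^ n :=
    fun m n hmn => pow_le_pow_right₀ hexp1 hmn
  obtain ⟨D, hD⟩ : ∃ D : ℤ, D = E * ((n : ℤ) + 2) * (f t).coeff (n + 2) := ⟨_, rfl⟩
  have hn2ne : ((n : ℤ) + 2) ≠ 0 := by positivity
  have hD0 : D ≠ 0 := by rw [hD]; exact mul_ne_zero (mul_ne_zero hE0 hn2ne) (hc0 t)
  have hDb : |(D : ℝ)| ≤ Real.exp (δ * L t) ^ 3 := by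
    rw [hD]
    push_cast
    rw [abs_mul, abs_mul, abs_of_nonneg (by positivity : (0 : ℝ) ≤ (n : ℝ) + 2)]
    calc |(E : ℝ)| * ((n : ℝ) + 2) * |((f t).coeff (n + 2) : ℝ)|
        ≤ Real.exp (δ * L t) * Real.exp (δ * L t) * Real.exp (δ * L t) :=
          mul_le_mul (mul_le_mul hEb hn2 (by positivity) (by positivity))
            ((hcoef t _).trans hMt) (abs_nonneg _) (by positivity)
      _ = Real.exp (δ * L t) ^ 3 := by ring
  have hD1 : (1 : ℝ) ≤ |(D : ℝ)| := by
    have : 1 ≤ |D| := Int.one_le_abs hD0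
    exact_mod_cast this
  have hs1 : |((Int.sign (Z t) : ℤ) : ℝ)| ≤ 1 := by
    have h2 : |Int.sign (Z t)| ≤ 1 := by
      rcases Int.sign_trichotomy (Z t) with h3 | h3 | h3 <;> rw [h3] <;> simp
    exact_mod_cast h2
  have hune : ∀ i, ((u t i : ℕ) : ℚ) ≠ 0 := fun i => by exact_mod_cast (hu t i).1
  have hDQ : (Int.castRingHom ℚ D) ≠ 0 := by
    simp only [eq_intCast]
    exact_mod_cast hD0
  have hlcQ : (Int.castRingHom ℚ) (f t).leadingCoeff ≠ 0 := by
    rw [Polynomial.leadingCoeff, hfd t]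
    simp only [eq_intCast]
    exact_mod_cast hc0 t
  have hfin := hC0 (Polynomial.C (D ^ (n + 2)) * (f t).scaleRoots D)
    (by
      rw [Polynomial.natDegree_C_mul (pow_ne_zero _ hD0), Polynomial.natDegree_scaleRoots]
      exact hfd t)
    (by
      rw [Polynomial.map_mul, Polynomial.map_C, Polynomial.map_scaleRoots _ _ _ hlcQ]
      refine Polynomial.Separable.of_dvd (sep_scaleRoots _ (hsep t) _ hDQ) ?_
      have hE1 : (Int.castRingHom ℚ (D ^ (n + 2))) ≠ 0 := by
        rw [map_pow]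
        exact pow_ne_zero _ hDQ
      refine ⟨Polynomial.C ((Int.castRingHom ℚ (D ^ (n + 2)))⁻¹), ?_⟩
      rw [mul_comm, ← mul_assoc, ← Polynomial.C_mul, inv_mul_cancel₀ hE1, Polynomial.C_1, one_mul])
    (Real.exp (δ * L t) ^ m) (one_le_pow₀ hexp1)
    (by
      intro i
      rw [Polynomial.coeff_C_mul, Polynomial.coeff_scaleRoots, hfd t]
      push_cast
      rw [abs_mul, abs_mul, abs_pow, abs_pow]
      have h1 : |(D : ℝ)| ^ (n + 2 - i) ≤ |(D : ℝ)| ^ (n + 2) :=
        pow_le_pow_right₀ hD1 (by omega)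
      calc |(D : ℝ)| ^ (n + 2) * (|((f t).coeff i : ℝ)| * |(D : ℝ)| ^ (n + 2 - i))
          ≤ |(D : ℝ)| ^ (n + 2) * (M t * |(D : ℝ)| ^ (n + 2)) :=
            mul_le_mul_of_nonneg_left (mul_le_mul (hcoef t i) h1 (by positivity)
              (by linarith [hM t])) (by positivity)
        _ = |(D : ℝ)| ^ (2 * (n + 2)) * M t := by ring
        _ ≤ (Real.exp (δ * L t) ^ 3) ^ (2 * (n + 2)) * Real.exp (δ * L t) :=
            mul_le_mul (pow_le_pow_left₀ (abs_nonneg _) hDb _) hMt (by linarith [hM t])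
              (by positivity)
        _ = Real.exp (δ * L t) ^ m := by
            rw [← pow_mul, ← pow_succ, hm]; congr 1; ring)
    (Fin.append (Fin.append (fun i => ⟨Units.mk0 _ (hune i), mem_gamS (hu t i) _ rfl⟩)
      (fun j => ⟨w j, hw j⟩)) (fun _ : Fin 1 => 1))
    (Fin.append (Fin.append (fun _ => 0) (fun j => Int.sign (Z t) * c j))
      (fun _ : Fin 1 => -(E * (f t).coeff (n + 1))))
    (Fin.append (Fin.append (fun i => D ^ (n + 2) * b t i) (fun _ => 0)) (fun _ : Fin 1 => 0))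
    (by
      intro j
      refine Fin.addCases (fun i => ?_) (fun i => ?_) j
      · refine Fin.addCases (fun i' => ?_) (fun i' => ?_) i
        · rw [Fin.append_left, Fin.append_left]
          simp only [Int.cast_zero, abs_zero]
          positivity
        · rw [Fin.append_left, Fin.append_right]
          push_cast
          rw [abs_mul]
          calc |((Int.sign (Z t) : ℤ) : ℝ)| * |(c i' : ℝ)| ≤ 1 * Real.exp (δ * L t) :=
                mul_le_mul hs1 (hc i') (abs_nonneg _) zero_le_one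
            _ = Real.exp (δ * L t) ^ 1 := by ring
            _ ≤ _ := hexpm _ _ (by omega)
      · rw [Fin.append_right]
        push_cast
        rw [abs_neg, abs_mul]
        calc |(E : ℝ)| * |((f t).coeff (n + 1) : ℝ)| ≤ Real.exp (δ * L t) * Real.exp (δ * L t) :=
              mul_le_mul hEb ((hcoef t _).trans hMt) (abs_nonneg _) (by positivity)
          _ = Real.exp (δ * L t) ^ 2 := by ring
          _ ≤ _ := hexpm _ _ (by omega))
    (by
      intro j
      refine Fin.addCases (fun i => ?_) (fun i => ?_) j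
      · refine Fin.addCases (fun i' => ?_) (fun i' => ?_) i
        · rw [Fin.append_left, Fin.append_left]
          push_cast
          rw [abs_mul, abs_pow]
          calc |(D : ℝ)| ^ (n + 2) * |(b t i' : ℝ)|
              ≤ (Real.exp (δ * L t) ^ 3) ^ (n + 2) * Real.exp (δ * L t) :=
                mul_le_mul (pow_le_pow_left₀ (abs_nonneg _) hDb _) ((hbM t i').trans hMt)
                  (abs_nonneg _) (by positivity)
            _ = Real.exp (δ * L t) ^ (3 * (n + 2) + 1) := by rw [← pow_mul, ← pow_succ]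
            _ ≤ _ := hexpm _ _ (by omega)
        · rw [Fin.append_left, Fin.append_right]
          simp only [Int.cast_zero, abs_zero]
          positivity
      · rw [Fin.append_right]
        simp only [Int.cast_zero, abs_zero]
        positivity)
    ((D * x t : ℤ) : ℚ) ((D ^ (n + 2) * y t : ℤ) : ℚ)
    (by
      rw [Fin.sum_univ_add, Fin.sum_univ_add]
      simp only [Fin.append_left, Fin.append_right, Int.cast_zero, mul_zero,
        Finset.sum_const_zero, zero_add, Finset.univ_unique, Finset.sum_singleton,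
        OneMemClass.coe_one, Units.val_one, one_mul]
      have h1 : ∑ j, ((w j : ℚˣ) : ℚ) * ((Int.sign (Z t) * c j : ℤ) : ℚ) =
          (Int.sign (Z t) : ℚ) * ((E : ℚ) * (Z t).natAbs) := by
        rw [hEy, Finset.mul_sum]
        push_cast
        exact Finset.sum_congr rfl fun i _ => by ring
      rw [h1]
      have h2 : (Int.sign (Z t) : ℚ) * ((E : ℚ) * (Z t).natAbs) = (E : ℚ) * (Z t : ℚ) := by
        have h3 : (((Z t).sign * ((Z t).natAbs : ℤ) : ℤ) : ℚ) = ((Z t : ℤ) : ℚ) := by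
          rw [Int.sign_mul_natAbs]
        push_cast [Nat.cast_natAbs] at h3 ⊢
        linear_combination (E : ℚ) * h3
      rw [h2, hD]
      simp only [Z]
      push_cast
      ring)
    (by
      rw [Fin.sum_univ_add, Fin.sum_univ_add]
      simp only [Fin.append_left, Fin.append_right, Int.cast_zero, mul_zero,
        Finset.sum_const_zero, add_zero, Units.val_mk0]
      rw [hy t]
      push_cast
      rw [Finset.mul_sum]
      exact Finset.sum_congr rfl fun i _ => by ring)
    (by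
      rw [Polynomial.map_mul, Polynomial.map_C, Polynomial.map_scaleRoots _ _ _ hlcQ,
        Polynomial.eval_mul, Polynomial.eval_C]
      have h1 : (((D * x t : ℤ)) : ℚ) = (Int.castRingHom ℚ D) * (x t : ℚ) := by
        simp
      have hnd : ((f t).map (Int.castRingHom ℚ)).natDegree = n + 2 := by
        rw [Polynomial.natDegree_map_of_leadingCoeff_ne_zero _ hlcQ, hfd t]
      rw [h1, Polynomial.scaleRoots_eval_mul, hnd]
      have h2 : ((f t).map (Int.castRingHom ℚ)).eval (x t : ℚ) = ((y t ^ 2 : ℤ) : ℚ) := by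
        rw [hyx t, Polynomial.eval_intCast_map]
        rfl
      rw [h2]
      simp only [eq_intCast]
      push_cast
      ring)
  rw [Rat.num_intCast, Rat.den_intCast, Real.log_pow, Real.log_exp] at hfin
  have hX1 : 1 < X t := (hXlog t ht1).1
  have h1 : Real.log (X t) ≤ Real.log (max |((D * x t : ℤ) : ℝ)| ((1 : ℕ) : ℝ)) := by
    apply Real.log_le_log (by linarith)
    refine le_trans ?_ (le_max_left _ _)
    push_cast
    rw [abs_mul]
    have h3 : 0 ≤ |(x t : ℝ)| := abs_nonneg _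
    simp only [X]
    nlinarith
  have h2 : 2 * κ * L t ≤ Real.log (X t) := by
    have h3 := Real.log_le_log (Real.exp_pos _) hXlt
    rwa [Real.log_exp] at h3
  have h3 : C0 * (1 + m * (δ * L t)) ≤ |C0| * (1 + m * (δ * L t)) :=
    mul_le_mul_of_nonneg_right (le_abs_self _) (by positivity)
  have h4 : |C0| * (m * δ) * L t ≤ κ / 2 * L t := mul_le_mul_of_nonneg_right hδ2 hLpos.le
  have h5 : |C0| ≤ κ / 2 * L t := by
    rw [div_le_iff₀ hκ0] at hLbig
    linarith
  have h6 : 0 < κ * L t := mul_pos hκ0 hLpos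
  nlinarith

end Pool.Agent.TH419.HX
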